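import Mathlib.GroupTheory.Sylow
import Mathlib.Tactic.Monotonicity.Lemmas
import Mathlib.Algebra.Field.ZMod
import Mathlib.Data.Int.Star
import Mathlib.Algebra.Order.Ring.Star
import Mathlib.Analysis.PSeries
import Mathlib.NumberTheory.Padics.PadicVal.Basic
import Mathlib.Analysis.Complex.ExponentialBounds
import Mathlib.Combinatorics.SimpleGraph.Maps
import Mathlib.Data.Finite.Perm
import Mathlib.GroupTheory.Perm.Centralizer
import Mathlib.Order.CompletePartialOrder
import Mathlib.Tactic.Algebra.Basic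

-- ======== part 0: formerly Pool.Agent.MP_debc19_co.Group
section MrgPart0

/-!
Group theory: a `p`-group of permutations has a large subgroup all of whose orbits have
size `1` or `p`.
-/

set_option autoImplicit false

namespace Pool.Agent.MP_debc19_co

open Equiv

theorem exists_central_perm {V : Type} [Fintype V] [DecidableEq V] (p : ℕ) [hp : Fact p.Prime]
    (Q : Subgroup (Perm V)) (hQ : IsPGroup p Q) :
    ∃ z : Perm V, z ^ p = 1 ∧ (∀ q ∈ Q, Commute z q) ∧ ∀ x, z x = x → ∀ q ∈ Q, q x = x := by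
  classical
  obtain ⟨z, hz, hmax⟩ := Finset.exists_max_image
    (Finset.univ.filter (fun z : Perm V => z ^ p = 1 ∧ ∀ q ∈ Q, Commute z q))
    (fun z => z.support.card) ⟨1, by simp⟩
  simp only [Finset.mem_filter, Finset.mem_univ, true_and] at hz hmax
  refine ⟨z, hz.1, hz.2, ?_⟩
  by_contra hcon
  push Not at hcon
  obtain ⟨x0, hx0, q0, hq0, hne⟩ := hcon
  have hinv : ∀ q ∈ Q, ∀ x, z (q x) = q x ↔ z x = x := by
    intro q hq x
    have h1 : z (q x) = q (z x) := by
      have := congrArg (fun f : Perm V => f x) (hz.2 q hq).eq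
      simpa using this
    rw [h1]
    exact q.injective.eq_iff
  let ρ : Q →* Perm {x // z x = x} :=
    { toFun := fun q => (q : Perm V).subtypePerm (fun x => hinv q q.2 x)
      map_one' := by ext; simp
      map_mul' := by intros; ext; simp }
  have hρ : IsPGroup p ρ.range := hQ.of_surjective ρ.rangeRestrict ρ.rangeRestrict_surjective
  have hnt : Nontrivial ρ.range := by
    refine ⟨⟨⟨ρ ⟨q0, hq0⟩, ⟨_, rfl⟩⟩, 1, ?_⟩⟩
    intro h
    apply hne
    have h2 : ρ ⟨q0, hq0⟩ = 1 := congrArg Subtype.val h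
    have h3 := congrArg (fun f : Perm {x // z x = x} => (f ⟨x0, hx0⟩ : V)) h2
    simpa [ρ] using h3
  have hc := hρ.center_nontrivial
  have hcp : IsPGroup p (Subgroup.center ρ.range) := hρ.to_subgroup _
  have hdvd : p ∣ Nat.card (Subgroup.center ρ.range) := by
    rcases hcp.card_eq_or_dvd with h | h
    · exfalso
      have := (Nat.card_eq_one_iff_unique.mp h).1
      exact not_subsingleton _ this
    · exact h
  obtain ⟨y, hy⟩ := exists_prime_orderOf_dvd_card' p hdvd
  set y' : Perm {x // z x = x} := ((y : ρ.range) : Perm {x // z x = x}) with hy'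
  have hyp : y' ^ p = 1 := by
    have h1 : y ^ p = 1 := hy ▸ pow_orderOf_eq_one y
    have h2 := congrArg (fun t : Subgroup.center ρ.range => ((t : ρ.range) : Perm {x // z x = x})) h1
    simpa using h2
  have hy1 : y' ≠ 1 := by
    intro h
    have h1 : y = 1 := Subtype.ext (Subtype.ext h)
    rw [h1, orderOf_one] at hy
    exact hp.out.one_lt.ne hy
  have hycomm : ∀ q : Q, ρ q * y' = y' * ρ q := by
    intro q
    have h1 := Subgroup.mem_center_iff.mp y.2 ⟨ρ q, ⟨q, rfl⟩⟩
    exact congrArg Subtype.val h1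
  set w : Perm V := Perm.ofSubtype y' with hw
  have hdisj : z.Disjoint w := by
    intro x
    by_cases hx : z x = x
    · exact Or.inl hx
    · exact Or.inr (Perm.ofSubtype_apply_of_not_mem y' hx)
  have hw1 : w ≠ 1 := by
    intro h
    apply hy1
    apply Perm.ofSubtype_injective
    rw [← hw, h, map_one]
  have hwp : w ^ p = 1 := by rw [hw, ← map_pow, hyp, map_one]
  have hwcomm : ∀ q ∈ Q, Commute w q := by
    intro q hq
    ext x
    by_cases hx : z x = x
    · have hqx : z (q x) = q x := (hinv q hq x).mpr hx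
      have h1 := congrArg (fun f : Perm {x // z x = x} => (f ⟨x, hx⟩ : V)) (hycomm ⟨q, hq⟩)
      simp only [Perm.mul_apply]
      rw [hw, Perm.ofSubtype_apply_of_mem y' hqx, Perm.ofSubtype_apply_of_mem y' hx]
      simpa [ρ] using h1.symm
    · have hqx : ¬ z (q x) = q x := fun h => hx ((hinv q hq x).mp h)
      simp only [Perm.mul_apply]
      rw [hw, Perm.ofSubtype_apply_of_not_mem y' hqx, Perm.ofSubtype_apply_of_not_mem y' hx]
  have hle := hmax (z * w) ⟨by rw [hdisj.commute.mul_pow, hz.1, hwp, one_mul],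
    fun q hq => (hz.2 q hq).mul_left (hwcomm q hq)⟩
  rw [hdisj.card_support_mul] at hle
  have : w.support.card ≠ 0 := by
    rw [Ne, Perm.card_support_eq_zero]
    exact hw1
  omega

/-- Two powers of an element of order `p` on a point. -/
theorem exists_pow_apply_eq {V : Type} (p : ℕ) [hp : Fact p.Prime] (z g h : Perm V)
    (hz : z ^ p = 1) (hh : Commute z h) (x : V) (a b : ℕ) (ha : g x = (z ^ a) x)
    (hb : h x = (z ^ b) x) (hne : h x ≠ x) : ∃ i : ℕ, g x = (h ^ i) x := by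
  have hpow : ∀ i : ℕ, (h ^ i) x = (z ^ (b * i)) x := by
    intro i
    induction i with
    | zero => simp
    | succ i ih =>
      have hc : h * z ^ (b * i) = z ^ (b * i) * h := ((hh.pow_left (b * i)).eq).symm
      have h1 : h ((z ^ (b * i)) x) = (z ^ (b * i)) (h x) := by
        have := congrArg (fun f : Perm V => f x) hc
        simpa using this
      rw [pow_succ', Perm.mul_apply, ih, h1, hb, ← Perm.mul_apply, ← pow_add, mul_add, mul_one]
  have hb0 : (b : ZMod p) ≠ 0 := by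
    intro h0
    rw [ZMod.natCast_eq_zero_iff] at h0
    obtain ⟨c, rfl⟩ := h0
    apply hne
    rw [hb, pow_mul, hz, one_pow, Perm.one_apply]
  refine ⟨((a : ZMod p) / b).val, ?_⟩
  rw [hpow, ha]
  have hmod : a ≡ b * ((a : ZMod p) / b).val [MOD p] := by
    rw [← ZMod.natCast_eq_natCast_iff]
    push_cast
    rw [ZMod.natCast_zmod_val]
    field_simp
  rw [pow_eq_pow_mod a hz, pow_eq_pow_mod (b * _) hz, hmod]

theorem exists_flat_subgroup {V : Type} [Fintype V] [DecidableEq V] (p : ℕ) [hp : Fact p.Prime]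
    (A : Subgroup (Perm V)) (e : ℕ) (he : p ^ e ∣ Nat.card A) :
    ∃ (R : Subgroup (Perm V)) (e0 j : ℕ), R ≤ A ∧ Nat.card R = p ^ e0 ∧ e ≤ e0 + j ∧
      j * (p - 1) * p ≤ Fintype.card V ∧ (∀ g ∈ R, g ^ p = 1) ∧
      ∀ g ∈ R, ∀ h ∈ R, ∀ x, h x ≠ x → ∃ i : ℕ, g x = (h ^ i) x := by
  classical
  obtain ⟨Q0, hQ0⟩ := Sylow.exists_subgroup_card_pow_prime p he
  set Q : Subgroup (Perm V) := Q0.map A.subtype with hQdef
  have hQcard : Nat.card Q = p ^ e := by
    rw [hQdef, Subgroup.card_map_of_injective A.subtype_injective, hQ0]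
  have hQA : Q ≤ A := Subgroup.map_subtype_le Q0
  have hQ : IsPGroup p Q := IsPGroup.of_card hQcard
  obtain ⟨z, hzp, hzc, hzf⟩ := exists_central_perm p Q hQ
  have hQc : Q ≤ Subgroup.centralizer {z} := by
    intro q hq
    rw [Subgroup.mem_centralizer_singleton_iff]
    exact (hzc q hq).eq.symm
  let φ : Q →* Perm z.cycleFactorsFinset :=
    (Perm.OnCycleFactors.toPermHom z).comp (Subgroup.inclusion hQc)
  have hkerP : IsPGroup p φ.ker := hQ.to_subgroup _
  have hranP : IsPGroup p φ.range := hQ.of_surjective φ.rangeRestrict φ.rangeRestrict_surjective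
  obtain ⟨e0, he0⟩ := IsPGroup.iff_card.mp hkerP
  obtain ⟨j, hj⟩ := IsPGroup.iff_card.mp hranP
  have hmul : Nat.card φ.ker * Nat.card φ.range = Nat.card Q := by
    rw [← Subgroup.index_ker, Subgroup.card_mul_index]
  have hej : e = e0 + j := by
    rw [he0, hj, hQcard, ← pow_add] at hmul
    exact (Nat.pow_right_injective hp.out.two_le hmul).symm
  set N0 := z.cycleFactorsFinset.card with hN0
  have hN0p : N0 * p ≤ Fintype.card V := by
    have h1 := Perm.cycleType_of_pow_prime_eq_one hzp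
    have h2 := z.sum_cycleType
    have h3 : z.cycleType.card = N0 := by
      rw [Perm.cycleType_def, Multiset.card_map]
      rfl
    rw [h1, Multiset.sum_replicate, h3, smul_eq_mul] at h2
    rw [h2]
    exact Finset.card_le_univ _
  have hjN : j * (p - 1) ≤ N0 := by
    have h1 : p ^ j ∣ N0.factorial := by
      rw [← hj]
      have := Subgroup.card_subgroup_dvd_card φ.range
      rwa [Nat.card_perm, Nat.card_eq_fintype_card (α := z.cycleFactorsFinset),
        Fintype.card_coe] at this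
    have h2 : j ≤ padicValNat p N0.factorial :=
      (padicValNat_dvd_iff_le (Nat.factorial_ne_zero _)).mp h1
    have h3 := sub_one_mul_padicValNat_factorial (p := p) N0
    calc j * (p - 1) ≤ padicValNat p N0.factorial * (p - 1) := Nat.mul_le_mul_right _ h2
      _ = (p - 1) * padicValNat p N0.factorial := mul_comm _ _
      _ ≤ N0 := by rw [h3]; exact Nat.sub_le _ _
  set R : Subgroup (Perm V) := φ.ker.map Q.subtype with hR
  have hRQ : R ≤ Q := Subgroup.map_subtype_le _
  have hRcyc : ∀ g ∈ R, ∀ x, ∃ a : ℕ, g x = (z ^ a) x := by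
    intro g hg x
    obtain ⟨g', hg', rfl⟩ := hg
    by_cases hx : z x = x
    · exact ⟨0, by simpa using hzf x hx g' g'.2⟩
    · have hk : Subgroup.inclusion hQc g' ∈ (Perm.OnCycleFactors.toPermHom z).ker := hg'
      rw [Perm.OnCycleFactors.mem_ker_toPermHom_iff] at hk
      have hxs : x ∈ z.support := Perm.mem_support.mpr hx
      have hc := hk (z.cycleOf x) (Perm.cycleOf_mem_cycleFactorsFinset_iff.mpr hxs)
      have hxc : x ∈ (z.cycleOf x).support := by
        rw [Perm.mem_support_cycleOf_iff]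
        exact ⟨Perm.SameCycle.refl _ _, hxs⟩
      have hgx : (g' : Perm V) x ∈ (z.cycleOf x).support := by
        rw [Perm.mem_support] at hxc ⊢
        intro h
        apply hxc
        have h1 : (g' : Perm V) ((z.cycleOf x) x) = (z.cycleOf x) ((g' : Perm V) x) := by
          have := congrArg (fun f : Perm V => f x) hc.eq
          simpa using this
        rw [h] at h1
        exact (g' : Perm V).injective h1
      rw [Perm.mem_support_cycleOf_iff] at hgx
      obtain ⟨a, ha⟩ := hgx.1.exists_nat_pow_eq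
      exact ⟨a, ha.symm⟩
  refine ⟨R, e0, j, hRQ.trans hQA, ?_, hej.le, ?_, ?_, ?_⟩
  · rw [hR, Subgroup.card_map_of_injective Q.subtype_injective, he0]
  · exact (Nat.mul_le_mul_right _ hjN).trans hN0p
  · intro g hg
    ext x
    obtain ⟨a, ha⟩ := hRcyc g hg x
    have hc : Commute z g := hzc g (hRQ hg)
    have hpow : ∀ i : ℕ, (g ^ i) x = (z ^ (a * i)) x := by
      intro i
      induction i with
      | zero => simp
      | succ i ih =>
        have hc' : g * z ^ (a * i) = z ^ (a * i) * g := ((hc.pow_left (a * i)).eq).symm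
        have h1 : g ((z ^ (a * i)) x) = (z ^ (a * i)) (g x) := by
          have := congrArg (fun f : Perm V => f x) hc'
          simpa using this
        rw [pow_succ', Perm.mul_apply, ih, h1, ha, ← Perm.mul_apply, ← pow_add, mul_add, mul_one]
    rw [hpow, mul_comm, pow_mul, hzp, one_pow]
  · intro g hg h hh x hne
    obtain ⟨a, ha⟩ := hRcyc g hg x
    obtain ⟨b, hb⟩ := hRcyc h hh x
    exact exists_pow_apply_eq p z g h hzp (hzc h (hRQ hh)) x a b ha hb hne

end Pool.Agent.MP_debc19_co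

end MrgPart0

-- ======== part 1: formerly Pool.Agent.MP_debc19_co.Blocks
section MrgPart1

/-!
Blocks: unions of `p`-cycles of an automorphism that are homogeneous to the rest of the graph.
-/

set_option autoImplicit false

namespace Pool.Agent.MP_debc19_co

open Equiv

/-- The automorphism group of a graph, as a group of permutations of the vertex set. -/
def autGrp {V : Type} (G : SimpleGraph V) : Subgroup (Perm V) where
  carrier := {σ | ∀ x y, G.Adj (σ x) (σ y) ↔ G.Adj x y}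
  one_mem' := by intro x y; simp
  mul_mem' := by
    intro a b ha hb x y
    simp only [Perm.mul_apply]
    exact (ha _ _).trans (hb _ _)
  inv_mem' := by
    intro a ha x y
    have := ha (a⁻¹ x) (a⁻¹ y)
    simpa using this.symm

theorem mem_autGrp {V : Type} {G : SimpleGraph V} {σ : Perm V} :
    σ ∈ autGrp G ↔ ∀ x y, G.Adj (σ x) (σ y) ↔ G.Adj x y := Iff.rfl

/-- A block with `k` cycles of length `p`. -/
structure IsBlock {V : Type} (G : SimpleGraph V) (p k : ℕ) (f : Fin k × ZMod p → V) : Prop where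
  pos : 0 < k
  inj : Function.Injective f
  inv : ∀ j l t t' d, G.Adj (f (j, t + d)) (f (l, t' + d)) ↔ G.Adj (f (j, t)) (f (l, t'))
  out : ∀ v, v ∉ Set.range f → ∀ j t s, G.Adj v (f (j, t)) ↔ G.Adj v (f (j, s))
  conn : ∀ J : Set (Fin k), J.Nonempty → J ≠ Set.univ → ∃ j ∈ J, ∃ l ∉ J, ∃ t t' s s',
    ¬ (G.Adj (f (j, t)) (f (l, t')) ↔ G.Adj (f (j, s)) (f (l, s')))

theorem exists_param {V : Type} [Fintype V] [DecidableEq V] (p : ℕ) [hp : Fact p.Prime]
    (g : Perm V) (hg : g ^ p = 1) (K : Set V) (hK : ∀ x ∈ K, g x ∈ K)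
    (hne : ∀ x ∈ K, g x ≠ x) :
    ∃ (k : ℕ) (r : Fin k → V),
      Function.Injective (fun y : Fin k × ZMod p => (g ^ y.2.val) (r y.1)) ∧
      Set.range (fun y : Fin k × ZMod p => (g ^ y.2.val) (r y.1)) = K := by
  classical
  let S : Setoid V := Perm.SameCycle.setoid g
  let Ω : Finset (Quotient S) := (Finset.univ.filter (· ∈ K)).image (Quotient.mk S)
  have hΩ : ∀ c : Ω, ∃ x ∈ K, Quotient.mk S x = c := by
    intro c
    obtain ⟨x, hx, hxc⟩ := Finset.mem_image.mp c.2
    exact ⟨x, (Finset.mem_filter.mp hx).2, hxc⟩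
  choose r hrK hr using hΩ
  have hKpow : ∀ (i : ℕ), ∀ x ∈ K, (g ^ i) x ∈ K := by
    intro i
    induction i with
    | zero => intro x hx; simpa using hx
    | succ i ih => intro x hx; rw [pow_succ', Perm.mul_apply]; exact hK _ (ih x hx)
  refine ⟨Ω.card, fun j => r (Ω.equivFin.symm j), ?_, ?_⟩
  · rintro ⟨j, t⟩ ⟨j', t'⟩ h
    simp only at h
    have hsc : g.SameCycle (r (Ω.equivFin.symm j)) (r (Ω.equivFin.symm j')) := by
      have h1 : g.SameCycle (r (Ω.equivFin.symm j)) ((g ^ t.val) (r (Ω.equivFin.symm j))) :=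
        ⟨(t.val : ℤ), by rw [zpow_natCast]⟩
      have h2 : g.SameCycle (r (Ω.equivFin.symm j')) ((g ^ t'.val) (r (Ω.equivFin.symm j'))) :=
        ⟨(t'.val : ℤ), by rw [zpow_natCast]⟩
      rw [h] at h1
      exact h1.trans h2.symm
    have hq : Quotient.mk S (r (Ω.equivFin.symm j)) = Quotient.mk S (r (Ω.equivFin.symm j')) :=
      Quotient.sound hsc
    rw [hr, hr] at hq
    have hjj : j = j' := Ω.equivFin.symm.injective (Subtype.ext hq)
    subst hjj
    set x := r (Ω.equivFin.symm j) with hx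
    have hper : Function.minimalPeriod g x = p := by
      apply Function.minimalPeriod_eq_prime
      · show g^[p] x = x
        rw [← Perm.coe_pow, hg]; rfl
      · exact hne x (hrK _)
    have h3 : t.val = t'.val := by
      have h4 : g^[t.val] x = g^[t'.val] x := by
        rw [← Perm.coe_pow, ← Perm.coe_pow]; exact h
      rwa [Function.iterate_eq_iterate_iff_of_lt_minimalPeriod (hper ▸ ZMod.val_lt t)
        (hper ▸ ZMod.val_lt t')] at h4
    rw [ZMod.val_injective p h3]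
  · ext x
    constructor
    · rintro ⟨⟨j, t⟩, rfl⟩
      exact hKpow _ _ (hrK _)
    · intro hx
      have hc : Quotient.mk S x ∈ Ω :=
        Finset.mem_image.mpr ⟨x, Finset.mem_filter.mpr ⟨Finset.mem_univ _, hx⟩, rfl⟩
      have h1 : g.SameCycle (r ⟨_, hc⟩) x := Quotient.exact (hr ⟨_, hc⟩)
      obtain ⟨i, hi⟩ := h1.exists_nat_pow_eq
      refine ⟨(Ω.equivFin ⟨_, hc⟩, (i : ZMod p)), ?_⟩
      simp only [Equiv.symm_apply_apply, ZMod.val_natCast]
      rw [← pow_eq_pow_mod i hg, hi]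

theorem pow_val_add {V : Type} (p : ℕ) [hp : Fact p.Prime] (g : Perm V) (hg : g ^ p = 1)
    (t d : ZMod p) : g ^ (t + d).val = g ^ d.val * g ^ t.val := by
  rw [ZMod.val_add, ← pow_eq_pow_mod _ hg, add_comm, pow_add]

theorem exists_blocks {V : Type} [Fintype V] [DecidableEq V] (G : SimpleGraph V) (p : ℕ)
    [hp : Fact p.Prime] (R : Subgroup (Perm V)) (hRA : R ≤ autGrp G) (e0 : ℕ)
    (hcard : Nat.card R = p ^ e0) (hp1 : ∀ g ∈ R, g ^ p = 1)
    (hcyc : ∀ g ∈ R, ∀ h ∈ R, ∀ x, h x ≠ x → ∃ i : ℕ, g x = (h ^ i) x) :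
    ∃ (ι : Type) (_ : Fintype ι) (k : ι → ℕ) (f : ∀ i, Fin (k i) × ZMod p → V),
      e0 ≤ Fintype.card ι ∧ (∀ i, IsBlock G p (k i) (f i)) ∧
      ∀ i i', i ≠ i' → Disjoint (Set.range (f i)) (Set.range (f i')) := by
  classical
  let link : V → V → Prop := fun x y =>
    (∃ g ∈ R, y = g x) ∨ ∃ g ∈ R, ¬ (G.Adj (g x) y ↔ G.Adj x y)
  have hsymm : ∀ x y, link x y → link y x := by
    rintro x y (⟨g, hg, rfl⟩ | ⟨g, hg, h⟩)
    · exact Or.inl ⟨g⁻¹, R.inv_mem hg, by simp⟩
    · refine Or.inr ⟨g⁻¹, R.inv_mem hg, fun h' => h ?_⟩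
      have h1 := hRA hg x (g⁻¹ y)
      have h2 : g (g⁻¹ y) = y := by simp
      rw [h2] at h1
      rw [h1, G.adj_comm, h', G.adj_comm]
  have hfixpow : ∀ (h : Perm V) (y : V), h y = y → ∀ i : ℕ, (h ^ i) y = y := by
    intro h y hy i
    exact Perm.pow_apply_eq_self_of_apply_eq_self hy i
  have hstab : ∀ x y, link x y → ∀ h ∈ R, h y = y → h x = x := by
    rintro x y (⟨g, hg, rfl⟩ | ⟨g, hg, hn⟩) h hh hy
    · by_contra hx
      obtain ⟨i, hi⟩ := hcyc g hg h hh x hx
      have h1 : (h ^ i) (g x) = g x := hfixpow h _ hy i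
      have h2 : g x = x := by
        apply (h ^ i).injective
        rw [h1, ← hi]
      rw [h2] at hy
      exact hx hy
    · by_contra hx
      obtain ⟨i, hi⟩ := hcyc g hg h hh x hx
      apply hn
      have h1 := hRA (R.pow_mem hh i) x y
      rw [hfixpow h y hy i, ← hi] at h1
      exact h1
  have hstab2 : ∀ x y, Relation.EqvGen link x y → ∀ h ∈ R, (h x = x ↔ h y = y) := by
    intro x y hxy
    induction hxy with
    | rel x y hxy => exact fun h hh => ⟨hstab y x (hsymm _ _ hxy) h hh, hstab x y hxy h hh⟩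
    | refl x => exact fun _ _ => Iff.rfl
    | symm x y _ ih => exact fun h hh => (ih h hh).symm
    | trans x y z _ _ ih1 ih2 => exact fun h hh => (ih1 h hh).trans (ih2 h hh)
  let T : Setoid V := Relation.EqvGen.setoid link
  let ι : Type := {c : Quotient T // ∃ x, Quotient.mk T x = c ∧ ∃ g ∈ R, g x ≠ x}
  have hι : ∀ c : ι, ∃ x, Quotient.mk T x = c.1 ∧ ∃ g ∈ R, g x ≠ x := fun c => c.2
  choose x0 hx0 g0 hg0 hg0x using hι
  have hpar : ∀ c : ι, ∃ (k : ℕ) (r : Fin k → V),
      Function.Injective (fun y : Fin k × ZMod p => (g0 c ^ y.2.val) (r y.1)) ∧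
      Set.range (fun y : Fin k × ZMod p => (g0 c ^ y.2.val) (r y.1)) =
        {y | Relation.EqvGen link (x0 c) y} := by
    intro c
    apply exists_param p (g0 c) (hp1 _ (hg0 c))
    · intro y hy
      exact Relation.EqvGen.trans _ _ _ hy (Relation.EqvGen.rel _ _ (Or.inl ⟨_, hg0 c, rfl⟩))
    · intro y hy h
      exact hg0x c ((hstab2 _ _ hy _ (hg0 c)).mpr h)
  choose k r hinj hrange using hpar
  refine ⟨ι, inferInstance, k, fun c y => (g0 c ^ y.2.val) (r c y.1), ?_, ?_, ?_⟩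
  · have hex : ∀ (g : R) (c : ι), ∃ a : Fin p, (g : Perm V) (x0 c) = (g0 c ^ a.val) (x0 c) := by
      intro g c
      obtain ⟨i, hi⟩ := hcyc g g.2 (g0 c) (hg0 c) (x0 c) (hg0x c)
      refine ⟨⟨i % p, Nat.mod_lt _ hp.out.pos⟩, ?_⟩
      rw [hi, pow_eq_pow_mod i (hp1 _ (hg0 c))]
    choose a ha using hex
    have hainj : Function.Injective a := by
      intro g h hgh
      have h1 : ∀ c : ι, ((h⁻¹ * g : R) : Perm V) (x0 c) = x0 c := by
        intro c
        have h2 := ha g c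
        rw [hgh, ← ha h c] at h2
        simp [h2]
      have h3 : ((h⁻¹ * g : R) : Perm V) = 1 := by
        ext x
        by_contra hx
        let c : ι := ⟨Quotient.mk T x, x, rfl, _, (h⁻¹ * g).2, hx⟩
        have h4 : Relation.EqvGen link (x0 c) x := Quotient.exact (hx0 c)
        exact hx ((hstab2 _ _ h4 _ (h⁻¹ * g).2).mp (h1 c))
      have h5 : h⁻¹ * g = 1 := Subtype.ext h3
      rw [inv_mul_eq_one] at h5
      exact h5.symm
    have h6 := Nat.card_le_card_of_injective a hainj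
    rw [hcard, Nat.card_fun, Nat.card_eq_fintype_card, Nat.card_eq_fintype_card,
      Fintype.card_fin] at h6
    exact (Nat.pow_le_pow_iff_right hp.out.one_lt).mp h6
  · intro c
    have hmem : ∀ y : Fin (k c) × ZMod p,
        Relation.EqvGen link (x0 c) ((g0 c ^ y.2.val) (r c y.1)) := by
      intro y
      have : (g0 c ^ y.2.val) (r c y.1) ∈ {y | Relation.EqvGen link (x0 c) y} := by
        rw [← hrange c]; exact ⟨y, rfl⟩
      exact this
    have hshift : ∀ (j : Fin (k c)) (t s : ZMod p),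
        (g0 c ^ s.val) (r c j) = (g0 c ^ (s - t).val) ((g0 c ^ t.val) (r c j)) := by
      intro j t s
      rw [← Perm.mul_apply, ← pow_val_add p _ (hp1 _ (hg0 c)), add_sub_cancel]
    refine ⟨?_, hinj c, ?_, ?_, ?_⟩
    · have : x0 c ∈ Set.range (fun y : Fin (k c) × ZMod p => (g0 c ^ y.2.val) (r c y.1)) := by
        rw [hrange c]; exact Relation.EqvGen.refl _
      obtain ⟨⟨j, _⟩, _⟩ := this
      exact j.pos
    · intro j l t t' d
      simp only
      rw [pow_val_add p _ (hp1 _ (hg0 c)), pow_val_add p _ (hp1 _ (hg0 c)), Perm.mul_apply,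
        Perm.mul_apply]
      exact hRA (R.pow_mem (hg0 c) _) _ _
    · intro v hv j t s
      simp only
      by_contra hn
      apply hv
      rw [hrange c]
      refine Relation.EqvGen.trans _ _ _ (hmem (j, t)) (Relation.EqvGen.rel _ _ (Or.inr
        ⟨g0 c ^ (s - t).val, R.pow_mem (hg0 c) _, ?_⟩))
      simp only
      rw [← hshift j t s, G.adj_comm, G.adj_comm _ v]
      exact fun h => hn h.symm
    · intro J hJ hJ'
      by_contra hcon
      push Not at hcon
      let U : V → Prop := fun v => ∃ j ∈ J, ∃ t : ZMod p, v = (g0 c ^ t.val) (r c j)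
      have hU : ∀ x y, link x y → U x → U y := by
        rintro x y hxy ⟨j, hj, t, rfl⟩
        have hact : g0 c ((g0 c ^ t.val) (r c j)) ≠ (g0 c ^ t.val) (r c j) := fun h =>
          hg0x c ((hstab2 _ _ (hmem (j, t)) _ (hg0 c)).mpr h)
        have horb : ∀ g ∈ R, ∃ s : ZMod p,
            g ((g0 c ^ t.val) (r c j)) = (g0 c ^ s.val) (r c j) := by
          intro g hg
          obtain ⟨i, hi⟩ := hcyc g hg (g0 c) (hg0 c) _ hact
          refine ⟨t + (i : ZMod p), ?_⟩
          rw [hi, pow_val_add p _ (hp1 _ (hg0 c)), Perm.mul_apply, ZMod.val_natCast,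
            ← pow_eq_pow_mod i (hp1 _ (hg0 c))]
        have hy : y ∈ Set.range (fun y : Fin (k c) × ZMod p => (g0 c ^ y.2.val) (r c y.1)) := by
          rw [hrange c]
          exact Relation.EqvGen.trans _ _ _ (hmem (j, t)) (Relation.EqvGen.rel _ _ hxy)
        rcases hxy with ⟨g, hg, rfl⟩ | ⟨g, hg, hn⟩
        · obtain ⟨s, hs⟩ := horb g hg
          exact ⟨j, hj, s, hs⟩
        · obtain ⟨⟨l, t'⟩, rfl⟩ := hy
          by_cases hl : l ∈ J
          · exact ⟨l, hl, t', rfl⟩
          · exfalso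
            obtain ⟨s, hs⟩ := horb g hg
            apply hn
            rw [hs]
            exact hcon j hj l hl s t' t t'
      have hU2 : ∀ x y, Relation.EqvGen link x y → (U x ↔ U y) := by
        intro x y hxy
        induction hxy with
        | rel x y hxy => exact ⟨hU x y hxy, hU y x (hsymm _ _ hxy)⟩
        | refl x => exact Iff.rfl
        | symm x y _ ih => exact ih.symm
        | trans x y z _ _ ih1 ih2 => exact ih1.trans ih2
      obtain ⟨j, hj⟩ := hJ
      apply hJ'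
      ext l
      simp only [Set.mem_univ, iff_true]
      have h1 : U ((g0 c ^ (0 : ZMod p).val) (r c j)) := ⟨j, hj, 0, rfl⟩
      have h2 : U ((g0 c ^ (0 : ZMod p).val) (r c l)) :=
        (hU2 _ _ (hmem (l, 0))).mp ((hU2 _ _ (hmem (j, 0))).mpr h1)
      obtain ⟨j', hj', t, ht⟩ := h2
      have h3 : ((l, 0) : Fin (k c) × ZMod p) = (j', t) := hinj c ht
      have h4 : l = j' := (Prod.ext_iff.mp h3).1
      rw [h4]
      exact hj'
  · intro c c' hcc
    rw [hrange c, hrange c', Set.disjoint_left]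
    intro y hy hy'
    apply hcc
    apply Subtype.ext
    rw [← hx0 c, ← hx0 c']
    exact Quotient.sound (Relation.EqvGen.trans _ _ _ hy (Relation.EqvGen.symm _ _ hy'))

end Pool.Agent.MP_debc19_co

end MrgPart1

-- ======== part 2: formerly Pool.Agent.MP_debc19_co.Link
section MrgPart2

/-!
A small set of positions inside a block that lets the blocks be recovered from a coloured
induced subgraph.
-/

set_option autoImplicit false

namespace Pool.Agent.MP_debc19_co

/-- An odd `2 × 2` pattern inside `Λ` with odd corner `(x, y)`. -/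
def Pat {k p : ℕ} (Θ : SimpleGraph (Fin k × ZMod p)) (Λ : Finset (Fin k × ZMod p))
    (x y : Fin k × ZMod p) : Prop :=
  x ∈ Λ ∧ y ∈ Λ ∧ ∃ x' ∈ Λ, ∃ y' ∈ Λ, x'.1 = x.1 ∧ y'.1 = y.1 ∧
    (Θ.Adj x y' ↔ Θ.Adj x' y') ∧ (Θ.Adj x' y ↔ Θ.Adj x' y') ∧ ¬ (Θ.Adj x y ↔ Θ.Adj x' y')

theorem Pat.mono {k p : ℕ} {Θ : SimpleGraph (Fin k × ZMod p)} {Λ Λ' : Finset (Fin k × ZMod p)}
    (h : Λ ⊆ Λ') {x y : Fin k × ZMod p} (hxy : Pat Θ Λ x y) : Pat Θ Λ' x y := by
  obtain ⟨h1, h2, x', h3, y', h4, h5⟩ := hxy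
  exact ⟨h h1, h h2, x', h h3, y', h h4, h5⟩

theorem const_of_shift {p : ℕ} [hp : Fact p.Prime] (σ : ZMod p → Prop) (u : ZMod p) (hu : u ≠ 0)
    (h : ∀ z, σ (z + u) ↔ σ z) (a b : ZMod p) : σ a ↔ σ b := by
  have h1 : ∀ (n : ℕ) (z : ZMod p), σ (z + n * u) ↔ σ z := by
    intro n
    induction n with
    | zero => intro z; simp
    | succ n ih =>
      intro z
      have : z + ((n + 1 : ℕ) : ZMod p) * u = (z + n * u) + u := by push_cast; ring
      rw [this, h, ih]
  have h2 : a = b + (((a - b) / u).val : ZMod p) * u := by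
    rw [ZMod.natCast_zmod_val]
    field_simp
    ring
  rw [h2, h1]

theorem exists_odd {p : ℕ} [hp : Fact p.Prime] (hp2 : p ≠ 2) (σ : ZMod p → Prop)
    (hσ : ∃ a b, ¬ (σ a ↔ σ b)) :
    ∃ u z1 z3 : ZMod p, (σ z3 ↔ σ (z3 - u)) ∧ (σ (z1 - u) ↔ σ (z3 - u)) ∧
      ¬ (σ z1 ↔ σ (z3 - u)) := by
  by_contra hcon
  have hc : ∀ u z1 z3 : ZMod p, (σ z3 ↔ σ (z3 - u)) → (σ (z1 - u) ↔ σ (z3 - u)) →
      (σ z1 ↔ σ (z3 - u)) := by
    intro u z1 z3 h1 h2
    by_contra h3
    exact hcon ⟨u, z1, z3, h1, h2, h3⟩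
  obtain ⟨a, b, hab⟩ := hσ
  apply hab
  by_cases h : ∃ z3, σ (z3 + 1) ↔ σ z3
  · obtain ⟨z3, hz3⟩ := h
    apply const_of_shift σ 1 one_ne_zero
    intro z
    have h1 := hc 1 (z + 1) (z3 + 1)
    have h2 := hc (-1) z z3
    simp only [add_sub_cancel_right, sub_neg_eq_add] at h1 h2
    tauto
  · have h2 : (2 : ZMod p) ≠ 0 := by
      intro h2
      have h3 : ((2 : ℕ) : ZMod p) = 0 := by exact_mod_cast h2
      rw [ZMod.natCast_eq_zero_iff] at h3
      exact hp2 ((Nat.prime_dvd_prime_iff_eq hp.out Nat.prime_two).mp h3)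
    apply const_of_shift σ 2 h2
    intro z
    have h3 : ¬ (σ (z + 1) ↔ σ z) := fun h' => h ⟨z, h'⟩
    have h4 : ¬ (σ (z + 1 + 1) ↔ σ (z + 1)) := fun h' => h ⟨z + 1, h'⟩
    have h5 : z + 2 = z + 1 + 1 := by ring
    rw [h5]
    tauto

theorem exists_link {p k : ℕ} [hp : Fact p.Prime] (hp2 : p ≠ 2)
    (Θ : SimpleGraph (Fin k × ZMod p)) (hb : IsBlock Θ p k id) :
    ∃ Λ : Finset (Fin k × ZMod p), Λ.card ≤ 3 * k ∧ ∃ x0 ∈ Λ, ∀ j, ∃ x ∈ Λ, x.1 = j ∧
      Relation.EqvGen (Pat Θ Λ) x0 x := by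
  classical
  let x0 : Fin k × ZMod p := (⟨0, hb.pos⟩, 0)
  have key : ∀ m, m < k → ∃ J : Finset (Fin k), J.card = m + 1 ∧
      ∃ Λ : Finset (Fin k × ZMod p), Λ.card ≤ 3 * (m + 1) ∧ x0 ∈ Λ ∧
        ∀ j ∈ J, ∃ x ∈ Λ, x.1 = j ∧ Relation.EqvGen (Pat Θ Λ) x0 x := by
    intro m
    induction m with
    | zero =>
      intro _
      refine ⟨{x0.1}, by simp, {x0}, by simp, by simp, ?_⟩
      intro j hj
      exact ⟨x0, by simp, (Finset.mem_singleton.mp hj).symm, Relation.EqvGen.refl _⟩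
    | succ m ih =>
      intro hm
      obtain ⟨J, hJ, Λ, hΛ, hx0, hall⟩ := ih (by omega)
      have hne : (J : Set (Fin k)).Nonempty := by
        rw [Finset.coe_nonempty, ← Finset.card_pos]; omega
      have hnu : (J : Set (Fin k)) ≠ Set.univ := by
        intro h
        have : J = Finset.univ := by
          apply Finset.coe_injective; simpa using h
        rw [this, Finset.card_univ, Fintype.card_fin] at hJ
        omega
      obtain ⟨j, hj, l, hl, t, t', s, s', hn⟩ := hb.conn J hne hnu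
      obtain ⟨⟨j', t1⟩, hx, hxj, hxr⟩ := hall j hj
      simp only at hxj
      subst hxj
      let σ : ZMod p → Prop := fun d => Θ.Adj (j', t1) (l, d)
      have hσ : ∀ a b : ZMod p, Θ.Adj (j', a) (l, b) ↔ σ (b - (a - t1)) := by
        intro a b
        have := hb.inv j' l t1 (b - (a - t1)) (a - t1)
        simp only [id, add_sub_cancel, sub_add_cancel] at this
        exact this
      obtain ⟨u, z1, z3, h1, h2, h3⟩ := exists_odd hp2 σ ⟨t' - (t - t1), s' - (s - t1), by
        rw [← hσ, ← hσ]; exact hn⟩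
      let Λ' : Finset (Fin k × ZMod p) := insert (j', t1 + u) (insert (l, z1) (insert (l, z3) Λ))
      have hsub : Λ ⊆ Λ' := fun y hy => by simp [Λ', hy]
      have hmono : ∀ y, Relation.EqvGen (Pat Θ Λ) x0 y → Relation.EqvGen (Pat Θ Λ') x0 y :=
        fun y hy => Relation.EqvGen.mono (fun a b (hab : Pat Θ Λ a b) => Pat.mono hsub hab) x0 y hy
      refine ⟨insert l J, by rw [Finset.card_insert_of_notMem hl, hJ], Λ', ?_, hsub hx0, ?_⟩
      · have e1 := Finset.card_insert_le (j', t1 + u) (insert (l, z1) (insert (l, z3) Λ))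
        have e2 := Finset.card_insert_le (l, z1) (insert (l, z3) Λ)
        have e3 := Finset.card_insert_le (l, z3) Λ
        simp only [Λ']
        omega
      · intro i hi
        rcases Finset.mem_insert.mp hi with rfl | hi
        · refine ⟨(i, z1), by simp [Λ'], rfl, ?_⟩
          refine Relation.EqvGen.trans _ _ _ (hmono _ hxr) (Relation.EqvGen.rel _ _ ?_)
          refine ⟨hsub hx, by simp [Λ'], (j', t1 + u), by simp [Λ'], (i, z3), by simp [Λ'],
            rfl, rfl, ?_, ?_, ?_⟩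
          · rw [hσ (t1 + u) z3, add_sub_cancel_left]; exact h1
          · rw [hσ (t1 + u) z3, hσ (t1 + u) z1, add_sub_cancel_left]; exact h2
          · rw [hσ (t1 + u) z3, add_sub_cancel_left]; exact h3
        · obtain ⟨x, hx1, hx2, hx3⟩ := hall i hi
          exact ⟨x, hsub hx1, hx2, hmono _ hx3⟩
  obtain ⟨J, hJ, Λ, hΛ, hx0, hall⟩ := key (k - 1) (by have := hb.pos; omega)
  have hk : k - 1 + 1 = k := by have := hb.pos; omega
  rw [hk] at hJ hΛ
  have hJu : J = Finset.univ := by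
    apply Finset.eq_univ_of_card
    rw [hJ, Fintype.card_fin]
  exact ⟨Λ, hΛ, x0, hx0, fun j => hall j (hJu ▸ Finset.mem_univ j)⟩

/-- A system of `N` disjoint blocks of the same type `Θ`. -/
structure IsSys {V : Type} (G : SimpleGraph V) {p k N : ℕ} (Θ : SimpleGraph (Fin k × ZMod p))
    (F : Fin N × (Fin k × ZMod p) → V) : Prop where
  inj : Function.Injective F
  adj : ∀ i x y, G.Adj (F (i, x)) (F (i, y)) ↔ Θ.Adj x y
  out : ∀ i v, (∀ x, F (i, x) ≠ v) → ∀ x y, x.1 = y.1 → (G.Adj v (F (i, x)) ↔ G.Adj v (F (i, y)))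

/-- The coloured graph `(H, U)` is the reduction of `G` that keeps the positions `Λ`. -/
structure IsCode {V W : Type} (G : SimpleGraph V) {p k N : ℕ}
    (F : Fin N × (Fin k × ZMod p) → V) (Λ : Finset (Fin k × ZMod p)) (H : SimpleGraph W)
    (U : Fin k × ZMod p → W → Prop) (η : W → V) : Prop where
  inj : Function.Injective η
  range : ∀ v, (∃ w, η w = v) ↔ ∀ i x, F (i, x) = v → x ∈ Λ
  adj : ∀ a b, H.Adj a b ↔ G.Adj (η a) (η b)
  col : ∀ x ∈ Λ, ∀ w, U x w ↔ ∃ i, η w = F (i, x)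

theorem IsSys.hom {V : Type} {G : SimpleGraph V} {p k N : ℕ} {Θ : SimpleGraph (Fin k × ZMod p)}
    {F : Fin N × (Fin k × ZMod p) → V} (h : IsSys G Θ F) {i i' : Fin N} (hii : i ≠ i')
    {x x' y y' : Fin k × ZMod p} (hx : x.1 = x'.1) (hy : y.1 = y'.1) :
    G.Adj (F (i, x)) (F (i', y)) ↔ G.Adj (F (i, x')) (F (i', y')) := by
  have h1 := h.out i' (F (i, x)) (fun z hz => hii (congrArg Prod.fst (h.inj hz)).symm) y y' hy
  have h2 := h.out i (F (i', y')) (fun z hz => hii (congrArg Prod.fst (h.inj hz))) x x' hx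
  rw [h1, G.adj_comm, h2, G.adj_comm]

theorem IsCode.notMem {V W : Type} {G : SimpleGraph V} {p k N : ℕ}
    {F : Fin N × (Fin k × ZMod p) → V} {Λ : Finset (Fin k × ZMod p)} {H : SimpleGraph W}
    {U : Fin k × ZMod p → W → Prop} {η : W → V} (h : IsCode G F Λ H U η) {w : W}
    (hw : ∀ x ∈ Λ, ¬ U x w) (i : Fin N) (x : Fin k × ZMod p) : F (i, x) ≠ η w := by
  intro hx
  have h1 : x ∈ Λ := (h.range (η w)).mp ⟨w, rfl⟩ i x hx
  exact hw x h1 ((h.col x h1 w).mpr ⟨i, hx.symm⟩)

theorem IsCode.bij {V W : Type} {G : SimpleGraph V} {p k N : ℕ}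
    {F : Fin N × (Fin k × ZMod p) → V} {Λ : Finset (Fin k × ZMod p)} {H : SimpleGraph W}
    {U : Fin k × ZMod p → W → Prop} {η : W → V} (h : IsCode G F Λ H U η)
    (hF : Function.Injective F) (ψ : Fin N → Fin N) (hψ : Function.Bijective ψ) :
    Function.Bijective (Sum.elim (fun y : Fin N × (Fin k × ZMod p) => F (ψ y.1, y.2))
      (fun w : {w : W // ∀ x ∈ Λ, ¬ U x w} => η w.1)) := by
  constructor
  · rintro (⟨i, x⟩ | w) (⟨i', x'⟩ | w') hab
    · simp only [Sum.elim_inl] at hab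
      have h1 := hF hab
      simp only [Prod.mk.injEq] at h1
      rw [hψ.1 h1.1, h1.2]
    · exact absurd hab (h.notMem w'.2 _ _)
    · exact absurd hab.symm (h.notMem w.2 _ _)
    · simp only [Sum.elim_inr] at hab
      rw [Subtype.ext (h.inj hab)]
  · intro v
    by_cases hv : ∃ i x, F (i, x) = v
    · obtain ⟨i, x, rfl⟩ := hv
      obtain ⟨i', rfl⟩ := hψ.2 i
      exact ⟨Sum.inl (i', x), rfl⟩
    · obtain ⟨w, rfl⟩ := (h.range v).mpr (fun i x hx => absurd ⟨i, x, hx⟩ hv)
      refine ⟨Sum.inr ⟨w, fun x hx hU => ?_⟩, rfl⟩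
      obtain ⟨i, hi⟩ := (h.col x hx w).mp hU
      exact hv ⟨i, x, hi.symm⟩

theorem recover {V1 V2 W : Type} {G1 : SimpleGraph V1} {G2 : SimpleGraph V2} {p k N : ℕ}
    {Θ : SimpleGraph (Fin k × ZMod p)} {F1 : Fin N × (Fin k × ZMod p) → V1}
    {F2 : Fin N × (Fin k × ZMod p) → V2} {Λ : Finset (Fin k × ZMod p)} {H : SimpleGraph W}
    {U : Fin k × ZMod p → W → Prop} {η1 : W → V1} {η2 : W → V2}
    (s1 : IsSys G1 Θ F1) (s2 : IsSys G2 Θ F2) (c1 : IsCode G1 F1 Λ H U η1)
    (c2 : IsCode G2 F2 Λ H U η2) {x0 : Fin k × ZMod p} (hx0 : x0 ∈ Λ)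
    (hlink : ∀ j, ∃ x ∈ Λ, x.1 = j ∧ Relation.EqvGen (Pat Θ Λ) x0 x) :
    Nonempty (G1 ≃g G2) := by
  classical
  have hex : ∀ (x : Fin k × ZMod p) (i : Fin N), ∃ i' : Fin N, x ∈ Λ →
      ∃ w, η1 w = F1 (i, x) ∧ η2 w = F2 (i', x) := by
    intro x i
    by_cases hx : x ∈ Λ
    · obtain ⟨w, hw⟩ := (c1.range (F1 (i, x))).mpr (fun i' x' h => by
        have := congrArg Prod.snd (s1.inj h)
        simp only at this
        rw [this]; exact hx)
      obtain ⟨i', hi'⟩ := (c2.col x hx w).mp ((c1.col x hx w).mpr ⟨i, hw⟩)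
      exact ⟨i', fun _ => ⟨w, hw, hi'⟩⟩
    · exact ⟨i, fun h => absurd h hx⟩
  choose φ hφ using hex
  have hinj : ∀ x ∈ Λ, Function.Injective (φ x) := by
    intro x hx i i' h
    obtain ⟨w, hw1, hw2⟩ := hφ x i hx
    obtain ⟨w', hw1', hw2'⟩ := hφ x i' hx
    rw [h, ← hw2'] at hw2
    rw [c2.inj hw2, hw1'] at hw1
    exact (congrArg Prod.fst (s1.inj hw1)).symm
  have hbij : ∀ x ∈ Λ, Function.Bijective (φ x) := fun x hx =>
    Finite.injective_iff_bijective.mp (hinj x hx)
  have hkey : ∀ x ∈ Λ, ∀ y ∈ Λ, ∀ i i', G1.Adj (F1 (i, x)) (F1 (i', y)) ↔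
      G2.Adj (F2 (φ x i, x)) (F2 (φ y i', y)) := by
    intro x hx y hy i i'
    obtain ⟨w, hw1, hw2⟩ := hφ x i hx
    obtain ⟨w', hw1', hw2'⟩ := hφ y i' hy
    rw [← hw1, ← hw2, ← hw1', ← hw2', ← c1.adj, ← c2.adj]
  have hpat : ∀ x y, Pat Θ Λ x y → φ x = φ y := by
    rintro x y ⟨hx, hy, x', hx', y', hy', e1, e2, p1, p2, p3⟩
    have a1 : ∀ i i', G1.Adj (F1 (i, x)) (F1 (i', y')) ↔ G1.Adj (F1 (i, x')) (F1 (i', y')) := by
      intro i i'
      by_cases h : i = i'
      · subst h; rw [s1.adj, s1.adj]; exact p1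
      · exact s1.hom h e1.symm rfl
    have a2 : ∀ i i', G2.Adj (F2 (i, x)) (F2 (i', y')) ↔ G2.Adj (F2 (i, x')) (F2 (i', y')) := by
      intro i i'
      by_cases h : i = i'
      · subst h; rw [s2.adj, s2.adj]; exact p1
      · exact s2.hom h e1.symm rfl
    have b2 : ∀ i i', G2.Adj (F2 (i, x')) (F2 (i', y)) ↔ G2.Adj (F2 (i, x')) (F2 (i', y')) := by
      intro i i'
      by_cases h : i = i'
      · subst h; rw [s2.adj, s2.adj]; exact p2
      · exact s2.hom h rfl e2.symm
    funext i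
    by_contra hne
    obtain ⟨i'', hi''⟩ := (hbij y' hy').2 (φ y i)
    apply p3
    rw [← s1.adj i x y, hkey x hx y hy, s2.hom hne e1.symm e2.symm, ← a2, ← hi'',
      ← hkey x hx y' hy', a1, hkey x' hx' y' hy', hi'', ← b2, ← hkey x' hx' y hy, s1.adj, p2]
  have heq : ∀ x y, Relation.EqvGen (Pat Θ Λ) x y → φ x = φ y := by
    intro x y hxy
    induction hxy with
    | rel x y hxy => exact hpat x y hxy
    | refl x => rfl
    | symm x y _ ih => exact ih.symm
    | trans x y z _ _ ih1 ih2 => exact ih1.trans ih2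
  choose s hs1 hs2 hs3 using hlink
  have hs4 : ∀ j, φ (s j) = φ x0 := fun j => (heq _ _ (hs3 j)).symm
  have B1 := c1.bij s1.inj id Function.bijective_id
  have B2 := c2.bij s2.inj (φ x0) (hbij x0 hx0)
  have hmix : ∀ (i : Fin N) (x : Fin k × ZMod p) (w : W), (∀ x ∈ Λ, ¬ U x w) →
      (G2.Adj (η2 w) (F2 (φ x0 i, x)) ↔ G1.Adj (η1 w) (F1 (i, x))) := by
    intro i x w hw
    obtain ⟨w', hw1, hw2⟩ := hφ (s x.1) i (hs1 _)
    rw [s2.out _ _ (c2.notMem hw _) x (s x.1) (hs2 _).symm,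
      s1.out _ _ (c1.notMem hw _) x (s x.1) (hs2 _).symm, ← hs4 x.1, ← hw1, ← hw2, ← c1.adj,
      ← c2.adj]
  refine ⟨⟨(Equiv.ofBijective _ B1).symm.trans (Equiv.ofBijective _ B2), ?_⟩⟩
  intro a b
  obtain ⟨a, rfl⟩ := (Equiv.ofBijective _ B1).surjective a
  obtain ⟨b, rfl⟩ := (Equiv.ofBijective _ B1).surjective b
  simp only [Equiv.trans_apply, Equiv.symm_apply_apply]
  simp only [Equiv.ofBijective_apply]
  rcases a with ⟨i, x⟩ | w <;> rcases b with ⟨i', y⟩ | w'
  · simp only [Sum.elim_inl, id]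
    by_cases h : i = i'
    · subst h; rw [s1.adj, s2.adj]
    · rw [s1.hom h (hs2 x.1).symm (hs2 y.1).symm,
        s2.hom (fun h' => h ((hbij x0 hx0).1 h')) (hs2 x.1).symm (hs2 y.1).symm,
        hkey _ (hs1 _) _ (hs1 _), hs4, hs4]
  · simp only [Sum.elim_inl, Sum.elim_inr, id]
    rw [G1.adj_comm, G2.adj_comm]
    exact hmix i x w'.1 w'.2
  · simp only [Sum.elim_inl, Sum.elim_inr, id]
    exact hmix i' y w.1 w.2
  · simp only [Sum.elim_inr]
    rw [← c1.adj, ← c2.adj]

end Pool.Agent.MP_debc19_co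

end MrgPart2

-- ======== part 3: formerly Pool.Agent.MP_debc19_co.Count
section MrgPart3

/-!
Counting lemmas: covers up to isomorphism, graphs with few automorphisms, numeric bounds.
-/

set_option autoImplicit false

namespace Pool.Agent.MP_debc19_co

open Equiv

/-- At most `M` graphs with property `Q` up to isomorphism. -/
def Cov (n : ℕ) (Q : SimpleGraph (Fin n) → Prop) (M : ℕ) : Prop :=
  ∃ S : Finset (SimpleGraph (Fin n)), S.card ≤ M ∧ ∀ G, Q G → ∃ H ∈ S, Nonempty (G ≃g H)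

theorem Cov.mono {n : ℕ} {Q Q' : SimpleGraph (Fin n) → Prop} {M M' : ℕ} (h : Cov n Q M)
    (hQ : ∀ G, Q' G → Q G) (hM : M ≤ M') : Cov n Q' M' := by
  obtain ⟨S, h1, h2⟩ := h
  exact ⟨S, h1.trans hM, fun G hG => h2 G (hQ G hG)⟩

theorem Cov.union {n : ℕ} {Q Q' : SimpleGraph (Fin n) → Prop} {M M' : ℕ} (h : Cov n Q M)
    (h' : Cov n Q' M') : Cov n (fun G => Q G ∨ Q' G) (M + M') := by
  classical
  obtain ⟨S, h1, h2⟩ := h
  obtain ⟨S', h1', h2'⟩ := h'
  refine ⟨S ∪ S', (Finset.card_union_le _ _).trans (Nat.add_le_add h1 h1'), ?_⟩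
  rintro G (hG | hG)
  · obtain ⟨H, hH, e⟩ := h2 G hG
    exact ⟨H, Finset.mem_union_left _ hH, e⟩
  · obtain ⟨H, hH, e⟩ := h2' G hG
    exact ⟨H, Finset.mem_union_right _ hH, e⟩

theorem Cov.biUnion {n : ℕ} {ι : Type} (I : Finset ι) (Q : ι → SimpleGraph (Fin n) → Prop)
    (M : ι → ℕ) (h : ∀ i ∈ I, Cov n (Q i) (M i)) :
    Cov n (fun G => ∃ i ∈ I, Q i G) (∑ i ∈ I, M i) := by
  classical
  induction I using Finset.induction_on with
  | empty => exact ⟨∅, by simp, by simp⟩
  | insert a I ha ih =>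
    rw [Finset.sum_insert ha]
    refine ((h a (Finset.mem_insert_self _ _)).union
      (ih fun i hi => h i (Finset.mem_insert_of_mem hi))).mono ?_ le_rfl
    rintro G ⟨i, hi, hG⟩
    rcases Finset.mem_insert.mp hi with rfl | hi
    · exact Or.inl hG
    · exact Or.inr ⟨i, hi, hG⟩

theorem Cov.biUnion_const {n : ℕ} {ι : Type} (I : Finset ι) (Q : ι → SimpleGraph (Fin n) → Prop)
    (M : ℕ) (h : ∀ i ∈ I, Cov n (Q i) M) :
    Cov n (fun G => ∃ i ∈ I, Q i G) (I.card * M) := by
  have := Cov.biUnion I Q (fun _ => M) h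
  rwa [Finset.sum_const, smul_eq_mul] at this

theorem Cov.unique {n : ℕ} (Q : SimpleGraph (Fin n) → Prop)
    (h : ∀ G G', Q G → Q G' → Nonempty (G ≃g G')) : Cov n Q 1 := by
  by_cases hQ : ∃ G, Q G
  · obtain ⟨G0, hG0⟩ := hQ
    exact ⟨{G0}, by simp, fun G hG => ⟨G0, by simp, h G G0 hG hG0⟩⟩
  · exact ⟨∅, by simp, fun G hG => absurd ⟨G, hG⟩ hQ⟩

theorem cov_small_aut (n : ℕ) (Q : SimpleGraph (Fin n) → Prop)
    (hQ : ∀ (σ : Perm (Fin n)) (G : SimpleGraph (Fin n)), Q G → Q (G.comap σ)) (L K : ℕ)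
    (hc : {G | Q G}.ncard ≤ n.factorial * L) :
    Cov n (fun G => Q G ∧ Nat.card (autGrp G) ≤ K) (L * K) := by
  classical
  let S : Setoid (SimpleGraph (Fin n)) :=
    ⟨fun G H => Nonempty (G ≃g H), ⟨fun _ => ⟨SimpleGraph.Iso.refl⟩, fun ⟨e⟩ => ⟨e.symm⟩,
      fun ⟨e⟩ ⟨e'⟩ => ⟨e.trans e'⟩⟩⟩
  let Ω : Finset (Quotient S) :=
    (Finset.univ.filter (fun G => Q G ∧ Nat.card (autGrp G) ≤ K)).image (Quotient.mk S)
  have hΩ : ∀ c : Ω, ∃ G, (Q G ∧ Nat.card (autGrp G) ≤ K) ∧ Quotient.mk S G = c := by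
    intro c
    obtain ⟨x, hx, hxc⟩ := Finset.mem_image.mp c.2
    exact ⟨x, (Finset.mem_filter.mp hx).2, hxc⟩
  choose r hrQ hr using hΩ
  have hcount : (Finset.univ : Finset (Ω × Perm (Fin n))).card ≤
      K * (Finset.univ.filter Q).card := by
    apply Finset.card_le_mul_card_image_of_maps_to (f := fun y => (r y.1).comap y.2)
    · intro y _
      exact Finset.mem_filter.mpr ⟨Finset.mem_univ _, hQ _ _ (hrQ _).1⟩
    · intro H _
      by_cases hne : (Finset.univ.filter
          (fun y : Ω × Perm (Fin n) => (r y.1).comap y.2 = H)).Nonempty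
      · obtain ⟨⟨c0, σ0⟩, h0⟩ := hne
        have h0' : (r c0).comap σ0 = H := (Finset.mem_filter.mp h0).2
        have hsame : ∀ y : Ω × Perm (Fin n), (r y.1).comap y.2 = H → y.1 = c0 := by
          intro y hy
          apply Subtype.ext
          rw [← hr, ← hr]
          apply Quotient.sound
          have e1 : (r y.1).comap y.2 ≃g r y.1 := SimpleGraph.Iso.comap y.2 (r y.1)
          have e2 : (r c0).comap σ0 ≃g r c0 := SimpleGraph.Iso.comap σ0 (r c0)
          rw [hy] at e1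
          rw [h0'] at e2
          exact ⟨e1.symm.trans e2⟩
        refine le_trans ?_ (hrQ c0).2
        rw [Nat.card_eq_fintype_card, ← Finset.card_univ]
        have hmem : ∀ y : Ω × Perm (Fin n), (r y.1).comap y.2 = H →
            y.2 * σ0⁻¹ ∈ autGrp (r c0) := by
          intro y hy a b
          have h1 := hsame y hy
          rw [h1, ← h0'] at hy
          have h2 := congrArg (fun G : SimpleGraph (Fin n) => G.Adj (σ0⁻¹ a) (σ0⁻¹ b)) hy
          simpa using h2
        apply Finset.card_le_card_of_injOn (fun y : Ω × Perm (Fin n) =>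
          if h : (r y.1).comap y.2 = H then (⟨y.2 * σ0⁻¹, hmem y h⟩ : autGrp (r c0)) else 1)
        · intro y _
          exact Finset.mem_coe.mpr (Finset.mem_univ _)
        · intro y hy y' hy' hyy
          have h1 : (r y.1).comap y.2 = H := (Finset.mem_filter.mp hy).2
          have h2 : (r y'.1).comap y'.2 = H := (Finset.mem_filter.mp hy').2
          simp only [h1, h2, dif_pos, Subtype.mk.injEq, mul_left_inj] at hyy
          exact Prod.ext ((hsame y h1).trans (hsame y' h2).symm) hyy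
      · rw [Finset.not_nonempty_iff_eq_empty.mp hne]
        simp
  have hQc : (Finset.univ.filter Q).card = {G | Q G}.ncard := by
    rw [← Set.ncard_coe_finset]
    congr 1
    ext G
    simp
  rw [Finset.card_univ, Fintype.card_prod, Fintype.card_perm, Fintype.card_fin, Fintype.card_coe,
    hQc] at hcount
  have hΩc : Ω.card ≤ L * K := by
    have h1 : Ω.card * n.factorial ≤ (L * K) * n.factorial :=
      calc Ω.card * n.factorial ≤ K * (n.factorial * L) :=
            hcount.trans (Nat.mul_le_mul_left _ hc)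
        _ = (L * K) * n.factorial := by ring
    exact Nat.le_of_mul_le_mul_right h1 (Nat.factorial_pos n)
  refine ⟨Finset.univ.image r, ?_, ?_⟩
  · refine Finset.card_image_le.trans ?_
    rwa [Finset.card_univ, Fintype.card_coe]
  · intro G hG
    have hc : Quotient.mk S G ∈ Ω :=
      Finset.mem_image.mpr ⟨G, Finset.mem_filter.mpr ⟨Finset.mem_univ _, hG⟩, rfl⟩
    refine ⟨r ⟨_, hc⟩, Finset.mem_image.mpr ⟨_, Finset.mem_univ _, rfl⟩, ?_⟩
    exact Quotient.exact (hr ⟨_, hc⟩).symm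

theorem geom_bound (D E L : ℕ) (h : 3 * E ≤ D) : ∀ n, n ≤ L →
    2 * ∑ M ∈ Finset.Icc 1 n, D ^ (L - M) * E ^ M + D ^ (L - n) * E ^ n ≤ D ^ L := by
  intro n
  induction n with
  | zero => intro _; simp
  | succ n ih =>
    intro hn
    have h1 := ih (by omega)
    rw [Finset.sum_Icc_succ_top (by omega)]
    have h2 : L - n = (L - (n + 1)) + 1 := by omega
    rw [h2] at h1
    have h3 : 3 * (D ^ (L - (n + 1)) * E ^ (n + 1)) ≤ D ^ (L - (n + 1) + 1) * E ^ n :=
      calc 3 * (D ^ (L - (n + 1)) * E ^ (n + 1)) = D ^ (L - (n + 1)) * (3 * E) * E ^ n := by ring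
        _ ≤ D ^ (L - (n + 1)) * D * E ^ n := by gcongr
        _ = D ^ (L - (n + 1) + 1) * E ^ n := by ring
    omega

theorem choose_le_three (n N B : ℕ) (h : n ≤ N * B) : n.choose N ≤ (3 * B) ^ N := by
  have h1 : (n.choose N : ℝ) ≤ (n : ℝ) ^ N / N.factorial := Nat.choose_le_pow_div N n
  have h2 : (N : ℝ) ^ N / N.factorial ≤ Real.exp N :=
    Real.pow_div_factorial_le_exp _ (Nat.cast_nonneg _) N
  have h3 : Real.exp N ≤ 3 ^ N := by
    rw [← Real.exp_one_pow]
    exact pow_le_pow_left₀ (Real.exp_pos 1).le (Real.exp_one_lt_d9.le.trans (by norm_num)) N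
  have h4 : (n : ℝ) ≤ N * B := by exact_mod_cast h
  have h5 : (n.choose N : ℝ) ≤ (3 * B) ^ N :=
    calc (n.choose N : ℝ) ≤ (n : ℝ) ^ N / N.factorial := h1
      _ ≤ ((N : ℝ) * B) ^ N / N.factorial := by gcongr
      _ = (N : ℝ) ^ N / N.factorial * B ^ N := by rw [mul_pow]; ring
      _ ≤ 3 ^ N * B ^ N := by gcongr; exact h2.trans h3
      _ = (3 * B) ^ N := by rw [mul_pow]
  exact_mod_cast h5

theorem fourth_root (p : ℕ) :
    p.sqrt.sqrt ^ 4 ≤ p ∧ p < (p.sqrt.sqrt + 1) ^ 4 := by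
  have h1 := Nat.sqrt_le' p
  have h2 := Nat.sqrt_le' p.sqrt
  have h3 := Nat.lt_succ_sqrt' p
  have h4 := Nat.lt_succ_sqrt' p.sqrt
  constructor
  · calc p.sqrt.sqrt ^ 4 = (p.sqrt.sqrt ^ 2) ^ 2 := by ring
      _ ≤ p.sqrt ^ 2 := Nat.pow_le_pow_left h2 2
      _ ≤ p := h1
  · calc p < (p.sqrt + 1) ^ 2 := h3
      _ ≤ ((p.sqrt.sqrt + 1) ^ 2) ^ 2 := Nat.pow_le_pow_left h4 2
      _ = (p.sqrt.sqrt + 1) ^ 4 := by ring

theorem exists_K : ∃ K : ℕ, ∀ n m : ℕ, m ≠ 0 →
    (∀ p, p.Prime → m.factorization p * p * p.sqrt.sqrt ≤ 7 * n) → m ≤ K ^ n := by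
  have hsum : Summable (fun j : ℕ => 1 / (j : ℝ) ^ (9 / 8 : ℝ)) :=
    Real.summable_one_div_nat_rpow.mpr (by norm_num)
  set S : ℝ := ∑' j : ℕ, 1 / (j : ℝ) ^ (9 / 8 : ℝ) with hS
  refine ⟨⌈Real.exp (112 * S)⌉₊, ?_⟩
  intro n m hm h
  have hterm : ∀ p ∈ m.factorization.support,
      (m.factorization p : ℝ) * Real.log p ≤ 112 * n * (1 / (p : ℝ) ^ (9 / 8 : ℝ)) := by
    intro p hp
    have hpp : p.Prime := Nat.prime_of_mem_primeFactors (by simpa using hp)
    have hp0 : (0 : ℝ) < p := by exact_mod_cast hpp.pos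
    obtain ⟨_, h2⟩ := fourth_root p
    set a := p.sqrt.sqrt with ha
    have ha1 : 1 ≤ a := by
      by_contra h0
      have : a = 0 := by omega
      rw [this] at h2
      have := hpp.two_le
      omega
    have ha1' : (1 : ℝ) ≤ a := by exact_mod_cast ha1
    have h3 : (m.factorization p : ℝ) * p * a ≤ 7 * n := by exact_mod_cast h p hpp
    have h4 : Real.log p ≤ (p : ℝ) ^ (1 / 8 : ℝ) / (1 / 8) :=
      Real.log_le_rpow_div hp0.le (by norm_num)
    have h5 : (p : ℝ) ^ (1 / 4 : ℝ) ≤ 2 * a := by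
      have h6 : (p : ℝ) ≤ (2 * a) ^ 4 := by
        have h7 : (p : ℝ) ≤ ((a : ℝ) + 1) ^ 4 := by exact_mod_cast h2.le
        refine h7.trans ?_
        gcongr
        linarith
      calc (p : ℝ) ^ (1 / 4 : ℝ) ≤ ((2 * (a : ℝ)) ^ 4) ^ (1 / 4 : ℝ) := by gcongr
        _ = 2 * a := by
          rw [← Real.rpow_natCast, ← Real.rpow_mul (by positivity)]
          norm_num
    have h8 : (p : ℝ) ^ (9 / 8 : ℝ) = p * (p : ℝ) ^ (1 / 8 : ℝ) := by
      rw [show (9 / 8 : ℝ) = 1 + 1 / 8 by norm_num, Real.rpow_add hp0, Real.rpow_one]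
    have h9 : (p : ℝ) ^ (1 / 4 : ℝ) = (p : ℝ) ^ (1 / 8 : ℝ) * (p : ℝ) ^ (1 / 8 : ℝ) := by
      rw [← Real.rpow_add hp0]; norm_num
    set x : ℝ := (p : ℝ) ^ (1 / 8 : ℝ) with hx
    have hx0 : 0 < x := Real.rpow_pos_of_pos hp0 _
    rw [h8, mul_one_div, le_div_iff₀ (by positivity)]
    have he0 : (0 : ℝ) ≤ m.factorization p := Nat.cast_nonneg _
    calc (m.factorization p : ℝ) * Real.log p * (p * x)
        ≤ (m.factorization p : ℝ) * (x / (1 / 8)) * (p * x) := by gcongr
      _ = 8 * ((m.factorization p : ℝ) * p) * (x * x) := by ring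
      _ ≤ 8 * ((m.factorization p : ℝ) * p) * (2 * a) := by
          rw [← h9]; exact mul_le_mul_of_nonneg_left h5 (by positivity)
      _ = 16 * ((m.factorization p : ℝ) * p * a) := by ring
      _ ≤ 16 * (7 * n) := by gcongr
      _ = 112 * n := by ring
  have hlog : Real.log m ≤ 112 * n * S := by
    rw [Real.log_nat_eq_sum_factorization, Finsupp.sum]
    refine (Finset.sum_le_sum hterm).trans ?_
    rw [← Finset.mul_sum]
    gcongr
    exact hsum.sum_le_tsum _ (fun j _ => by positivity)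
  have hm0 : (0 : ℝ) < m := by exact_mod_cast Nat.pos_of_ne_zero hm
  have h1 : (m : ℝ) ≤ (⌈Real.exp (112 * S)⌉₊ : ℝ) ^ n :=
    calc (m : ℝ) = Real.exp (Real.log m) := (Real.exp_log hm0).symm
      _ ≤ Real.exp (n * (112 * S)) := by gcongr; linarith
      _ = Real.exp (112 * S) ^ n := Real.exp_nat_mul _ _
      _ ≤ (⌈Real.exp (112 * S)⌉₊ : ℝ) ^ n := by gcongr; exact Nat.le_ceil _
  exact_mod_cast h1

end Pool.Agent.MP_debc19_co

end MrgPart3

-- ======== part 4: formerly Pool.Agent.MP_debc19_co.Main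
section MrgPart4

/-!
Every small hereditary class of graphs is tiny.
-/

set_option autoImplicit false

namespace Pool.Agent.MP_debc19_co

open Equiv

/-- The possible types of blocks in graphs of the class `P`. -/
def Types (P : (n : ℕ) → SimpleGraph (Fin n) → Prop) (p k : ℕ) :
    Set (SimpleGraph (Fin k × ZMod p)) :=
  {Θ | IsBlock Θ p k id ∧ ∀ (m : ℕ) (g : Fin m ↪ Fin k × ZMod p), P m (Θ.comap g)}

theorem exists_diff_basis (p w : ℕ) [hp : Fact p.Prime] (hw : p ≤ w * w) :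
    ∃ I : Finset (ZMod p), I.card ≤ 2 * w ∧ ∀ d : ZMod p, ∃ a ∈ I, ∃ b ∈ I, d = b - a := by
  classical
  have hw0 : 0 < w := by
    rcases Nat.eq_zero_or_pos w with h | h
    · subst h; have := hp.out.pos; omega
    · exact h
  refine ⟨(Finset.range w).image (fun s : ℕ => -(s : ZMod p)) ∪
    (Finset.range w).image (fun q : ℕ => ((w * q : ℕ) : ZMod p)), ?_, ?_⟩
  · refine (Finset.card_union_le _ _).trans ?_
    have h1 := Finset.card_image_le (s := Finset.range w) (f := fun s : ℕ => -(s : ZMod p))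
    have h2 := Finset.card_image_le (s := Finset.range w)
      (f := fun q : ℕ => ((w * q : ℕ) : ZMod p))
    rw [Finset.card_range] at h1 h2
    omega
  · intro d
    refine ⟨-((d.val % w : ℕ) : ZMod p), Finset.mem_union_left _ (Finset.mem_image.mpr
      ⟨d.val % w, Finset.mem_range.mpr (Nat.mod_lt _ hw0), rfl⟩),
      ((w * (d.val / w) : ℕ) : ZMod p), Finset.mem_union_right _ (Finset.mem_image.mpr
      ⟨d.val / w, Finset.mem_range.mpr ?_, rfl⟩), ?_⟩
    · rw [Nat.div_lt_iff_lt_mul hw0]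
      exact (ZMod.val_lt d).trans_le hw
    · rw [sub_neg_eq_add, ← Nat.cast_add, Nat.div_add_mod, ZMod.natCast_zmod_val]

theorem card_types (P : (n : ℕ) → SimpleGraph (Fin n) → Prop) (c : ℕ) (hc1 : 1 ≤ c)
    (hc : ∀ n, {G : SimpleGraph (Fin n) | P n G}.ncard ≤ n.factorial * c ^ n)
    (p k : ℕ) [hp : Fact p.Prime] (hk : k ≤ p.sqrt.sqrt) :
    (Types P p k).ncard ≤ ((8 * c) ^ 8 * 2 ^ 24) ^ p := by
  classical
  obtain ⟨h1, h2⟩ := fourth_root p
  set a := p.sqrt.sqrt with ha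
  have ha1 : 1 ≤ a := by
    by_contra h0
    have : a = 0 := by omega
    rw [this] at h2
    have := hp.out.two_le
    omega
  obtain ⟨I, hI, hd⟩ := exists_diff_basis p ((a + 1) ^ 2) (by nlinarith)
  let X : Finset (Fin k × ZMod p) := Finset.univ ×ˢ I
  set m := X.card with hm
  let g : Fin m ↪ Fin k × ZMod p :=
    ⟨fun i => (X.equivFin.symm i).1, fun i j h => X.equivFin.symm.injective (Subtype.ext h)⟩
  have hg : ∀ (j : Fin k), ∀ t ∈ I, ∃ i, g i = (j, t) := by
    intro j t ht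
    refine ⟨X.equivFin ⟨(j, t), Finset.mem_product.mpr ⟨Finset.mem_univ _, ht⟩⟩, ?_⟩
    simp [g]
  have hle : (Types P p k).ncard ≤ {G : SimpleGraph (Fin m) | P m G}.ncard := by
    apply Set.ncard_le_ncard_of_injOn (fun Θ => Θ.comap g)
    · intro Θ hΘ
      exact hΘ.2 m g
    · intro Θ hΘ Θ' hΘ' h
      ext ⟨j, t⟩ ⟨l, t'⟩
      obtain ⟨u, hu, v, hv, huv⟩ := hd (t' - t)
      obtain ⟨i, hi⟩ := hg j u hu
      obtain ⟨i', hi'⟩ := hg l v hv
      have e1 := hΘ.1.inv j l u v (t - u)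
      have e2 := hΘ'.1.inv j l u v (t - u)
      have e3 : v + (t - u) = t' := by linear_combination -huv
      simp only [id, add_sub_cancel, e3] at e1 e2
      have e4 := congrArg (fun G : SimpleGraph (Fin m) => G.Adj i i') h
      simp only [SimpleGraph.comap_adj, hi, hi', eq_iff_iff] at e4
      rw [e1, e2, e4]
  have hmb : m ≤ 8 * a ^ 3 := by
    have : m = k * I.card := by
      rw [hm, Finset.card_product, Finset.card_univ, Fintype.card_fin]
    rw [this]
    calc k * I.card ≤ a * (2 * (a + 1) ^ 2) := Nat.mul_le_mul hk hI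
      _ ≤ a * (2 * (2 * a) ^ 2) := by gcongr; omega
      _ = 8 * a ^ 3 := by ring
  have ha2 : a ≤ 2 ^ a := Nat.lt_two_pow_self.le
  have ha3 : a ^ 3 ≤ p := (Nat.pow_le_pow_right ha1 (by norm_num)).trans h1
  calc (Types P p k).ncard ≤ m.factorial * c ^ m := hle.trans (hc m)
    _ ≤ m ^ m * c ^ m := by gcongr; exact Nat.factorial_le_pow m
    _ = (m * c) ^ m := by rw [mul_pow]
    _ ≤ (8 * a ^ 3 * c) ^ m := by gcongr
    _ ≤ (8 * a ^ 3 * c) ^ (8 * a ^ 3) := Nat.pow_le_pow_right (by positivity) hmb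
    _ ≤ (8 * (2 ^ a) ^ 3 * c) ^ (8 * a ^ 3) := by gcongr
    _ = ((8 * c) ^ 8) ^ (a ^ 3) * (2 ^ 24) ^ (a ^ 4) := by
      rw [← pow_mul, ← pow_mul, ← pow_mul, show 8 * 2 ^ (a * 3) * c = (8 * c) * 2 ^ (a * 3) by ring,
        mul_pow, ← pow_mul]
      congr 2
      ring
    _ ≤ ((8 * c) ^ 8) ^ p * (2 ^ 24) ^ p := by
      gcongr
      · exact Nat.one_le_pow _ _ (by omega)
      · norm_num
    _ = ((8 * c) ^ 8 * 2 ^ 24) ^ p := by rw [← mul_pow]

theorem IsBlock.comap {V : Type} {G : SimpleGraph V} {p k : ℕ} {f : Fin k × ZMod p → V}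
    (h : IsBlock G p k f) : IsBlock (G.comap f) p k id where
  pos := h.pos
  inj := Function.injective_id
  inv := h.inv
  out := fun v hv => absurd ⟨v, rfl⟩ hv
  conn := h.conn

theorem exists_sys (P : (n : ℕ) → SimpleGraph (Fin n) → Prop)
    (hP : ∀ (n m : ℕ) (f : Fin m ↪ Fin n) (G : SimpleGraph (Fin n)), P n G → P m (G.comap f))
    (B : ℕ) (n : ℕ) (hn : 0 < n) (G : SimpleGraph (Fin n)) (hG : P n G)
    (p : ℕ) [hp : Fact p.Prime] (hB : ∀ k, k ≤ p.sqrt.sqrt → (Types P p k).ncard ≤ B ^ p)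
    (hB1 : 1 ≤ B) (e : ℕ) (he : p ^ e ∣ Nat.card (autGrp G))
    (hbig : 3 * n ≤ e * p * p.sqrt.sqrt) :
    ∃ (k N : ℕ) (Θ : SimpleGraph (Fin k × ZMod p)) (F : Fin N × (Fin k × ZMod p) → Fin n),
      1 ≤ k ∧ k ≤ p.sqrt.sqrt ∧ Θ ∈ Types P p k ∧ IsSys G Θ F ∧ n ≤ N * (8 * B) ^ p := by
  classical
  obtain ⟨R, e0, j, hRA, hcard, hej, hj, hp1, hcyc⟩ := exists_flat_subgroup p (autGrp G) e he
  obtain ⟨ι, _, k, f, hι, hblk, hdisj⟩ := exists_blocks G p R hRA e0 hcard hp1 hcyc
  rw [Fintype.card_fin] at hj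
  set a := p.sqrt.sqrt with ha
  have hap : a ≤ p - 1 := by
    have h1 : p.sqrt < p := Nat.sqrt_lt_self hp.out.one_lt
    have h2 : a ≤ p.sqrt := Nat.sqrt_le_self _
    omega
  have hja : j * (p * a) ≤ n := by
    calc j * (p * a) ≤ j * (p * (p - 1)) := by gcongr
      _ = j * (p - 1) * p := by ring
      _ ≤ n := hj
  have hsum : ∑ i, k i * p ≤ n := by
    let Φ : (Σ i, Fin (k i) × ZMod p) → Fin n := fun y => f y.1 y.2
    have hΦ : Function.Injective Φ := by
      rintro ⟨i, x⟩ ⟨i', x'⟩ h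
      by_cases hii : i = i'
      · subst hii
        have h' : x = x' := (hblk i).inj h
        rw [h']
      · exfalso
        exact Set.disjoint_left.mp (hdisj i i' hii) ⟨x, rfl⟩ ⟨x', h.symm⟩
    have := Fintype.card_le_of_injective Φ hΦ
    simpa [Fintype.card_sigma, ZMod.card] using this
  let Big := Finset.univ.filter (fun i => a < k i)
  let Sm := Finset.univ.filter (fun i => ¬ a < k i)
  have hBS : Big.card + Sm.card = Fintype.card ι := by
    rw [Finset.card_filter_add_card_filter_not, Finset.card_univ]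
  have hBig : Big.card * (p * a) ≤ n := by
    calc Big.card * (p * a) = ∑ _i ∈ Big, p * a := by rw [Finset.sum_const, smul_eq_mul]
      _ ≤ ∑ i ∈ Big, k i * p := by
        apply Finset.sum_le_sum
        intro i hi
        have := (Finset.mem_filter.mp hi).2
        rw [mul_comm]
        gcongr
      _ ≤ ∑ i, k i * p := Finset.sum_le_sum_of_subset (Finset.subset_univ _)
      _ ≤ n := hsum
  have hSm : n ≤ Sm.card * (p * a) := by
    have h1 : e ≤ Big.card + Sm.card + j := by omega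
    have h2 : e * (p * a) ≤ (Big.card + Sm.card + j) * (p * a) := Nat.mul_le_mul_right _ h1
    have h3 : e * p * a = e * (p * a) := by ring
    rw [add_mul, add_mul] at h2
    omega
  let T : (k' : ℕ) → SimpleGraph (Fin k' × ZMod p) → Finset ι := fun k' Θ =>
    Finset.univ.filter (fun i => ∃ f' : Fin k' × ZMod p → Fin n, IsBlock G p k' f' ∧
      Set.range f' = Set.range (f i) ∧ G.comap f' = Θ)
  have hpig : ∃ k' ∈ Finset.Icc 1 a, ∃ Θ ∈ Types P p k', n ≤ (T k' Θ).card * (8 * B) ^ p := by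
    by_contra hcon
    push Not at hcon
    have hsub : Sm ⊆ (Finset.Icc 1 a).biUnion (fun k' =>
        (Types P p k').toFinite.toFinset.biUnion (T k')) := by
      intro i hi
      have hi' := (Finset.mem_filter.mp hi).2
      refine Finset.mem_biUnion.mpr ⟨k i, Finset.mem_Icc.mpr ⟨(hblk i).pos, by omega⟩,
        Finset.mem_biUnion.mpr ⟨G.comap (f i), ?_, Finset.mem_filter.mpr
          ⟨Finset.mem_univ _, f i, hblk i, rfl, rfl⟩⟩⟩
      rw [Set.Finite.mem_toFinset]
      refine ⟨(hblk i).comap, fun m g => ?_⟩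
      exact hP n m (g.trans ⟨f i, (hblk i).inj⟩) G hG
    have h1 : Sm.card * (8 * B) ^ p ≤ a * (B ^ p * (n - 1)) := by
      calc Sm.card * (8 * B) ^ p
          ≤ (∑ k' ∈ Finset.Icc 1 a, ∑ Θ ∈ (Types P p k').toFinite.toFinset, (T k' Θ).card) *
              (8 * B) ^ p := by
            gcongr
            refine (Finset.card_le_card hsub).trans (Finset.card_biUnion_le.trans ?_)
            exact Finset.sum_le_sum fun k' _ => Finset.card_biUnion_le
        _ = ∑ k' ∈ Finset.Icc 1 a, ∑ Θ ∈ (Types P p k').toFinite.toFinset,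
              (T k' Θ).card * (8 * B) ^ p := by
            rw [Finset.sum_mul]
            exact Finset.sum_congr rfl fun k' _ => Finset.sum_mul _ _ _
        _ ≤ ∑ _k' ∈ Finset.Icc 1 a, B ^ p * (n - 1) := by
            apply Finset.sum_le_sum
            intro k' hk'
            calc ∑ Θ ∈ (Types P p k').toFinite.toFinset, (T k' Θ).card * (8 * B) ^ p
                ≤ ∑ _Θ ∈ (Types P p k').toFinite.toFinset, (n - 1) := by
                  apply Finset.sum_le_sum
                  intro Θ hΘ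
                  have := hcon k' hk' Θ ((Set.Finite.mem_toFinset _).mp hΘ)
                  omega
              _ = (Types P p k').ncard * (n - 1) := by
                  rw [Finset.sum_const, smul_eq_mul, Set.ncard_eq_toFinset_card]
              _ ≤ B ^ p * (n - 1) := by
                  gcongr
                  exact hB k' (Finset.mem_Icc.mp hk').2
        _ = a * (B ^ p * (n - 1)) := by simp
    have hp2 : p ≤ 2 ^ p := Nat.lt_two_pow_self.le
    have ha2 : a ≤ 2 ^ p := by omega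
    have h2 : n * (8 * B) ^ p ≤ (n - 1) * (8 * B) ^ p :=
      calc n * (8 * B) ^ p ≤ Sm.card * (p * a) * (8 * B) ^ p := by gcongr
        _ = Sm.card * (8 * B) ^ p * (p * a) := by ring
        _ ≤ a * (B ^ p * (n - 1)) * (p * a) := by gcongr
        _ ≤ 2 ^ p * (B ^ p * (n - 1)) * (2 ^ p * 2 ^ p) := by gcongr
        _ = (n - 1) * (8 * B) ^ p := by
          rw [show (8 : ℕ) = 2 * 2 * 2 by norm_num, mul_pow, mul_pow, mul_pow]; ring
    have h3 := Nat.le_of_mul_le_mul_right h2 (by positivity)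
    omega
  obtain ⟨k', hk', Θ, hΘ, hN⟩ := hpig
  have hT : ∀ i : T k' Θ, ∃ f' : Fin k' × ZMod p → Fin n, IsBlock G p k' f' ∧
      Set.range f' = Set.range (f i) ∧ G.comap f' = Θ := fun i => (Finset.mem_filter.mp i.2).2
  choose f' hf1 hf2 hf3 using hT
  refine ⟨k', (T k' Θ).card, Θ, fun y => f' ((T k' Θ).equivFin.symm y.1) y.2,
    (Finset.mem_Icc.mp hk').1, (Finset.mem_Icc.mp hk').2, hΘ, ⟨?_, ?_, ?_⟩, hN⟩
  · rintro ⟨i, x⟩ ⟨i', x'⟩ h
    simp only at h
    by_cases hii : i = i'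
    · subst hii
      rw [(hf1 _).inj h]
    · exfalso
      have hne : (((T k' Θ).equivFin.symm i : T k' Θ) : ι) ≠ ((T k' Θ).equivFin.symm i' : T k' Θ) :=
        fun h' => hii ((T k' Θ).equivFin.symm.injective (Subtype.ext h'))
      have hd := hdisj _ _ hne
      rw [← hf2, ← hf2] at hd
      exact Set.disjoint_left.mp hd ⟨x, rfl⟩ ⟨x', h.symm⟩
  · intro i x y
    have h := congrArg (fun G : SimpleGraph (Fin k' × ZMod p) => G.Adj x y)
      (hf3 ((T k' Θ).equivFin.symm i))
    exact Iff.of_eq h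
  · rintro i v hv ⟨j1, t⟩ ⟨j2, s⟩ hj
    simp only at hj
    subst hj
    exact (hf1 _).out v (fun ⟨x, hx⟩ => hv x hx) j1 t s

theorem cov_sys (P : (n : ℕ) → SimpleGraph (Fin n) → Prop)
    (hP : ∀ (n m : ℕ) (f : Fin m ↪ Fin n) (G : SimpleGraph (Fin n)), P n G → P m (G.comap f))
    (D B n p k N : ℕ) [hp : Fact p.Prime] (hp7 : 7 ≤ p) (hD : 1 ≤ D) (hB : 1 ≤ B) (hn : 0 < n)
    (IH : ∀ n' < n, Cov n' (P n') (D ^ (2 * n'))) (hN : n ≤ N * B ^ p)
    (Θ : SimpleGraph (Fin k × ZMod p)) (hΘ : IsBlock Θ p k id) :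
    Cov n (fun G => P n G ∧ ∃ F : Fin N × (Fin k × ZMod p) → Fin n, IsSys G Θ F)
      (D ^ (2 * n - N * k * p) * ((3 * B) ^ 3) ^ (N * k * p)) := by
  classical
  obtain ⟨Λ, hΛ, x0, hx0, hlink⟩ := exists_link (by omega) Θ hΘ
  have hk := hΘ.pos
  have hN0 : 0 < N := by
    rcases Nat.eq_zero_or_pos N with h | h
    · subst h; omega
    · exact h
  set m := N * (k * p - Λ.card) with hm
  have hm2 : N * k * p ≤ 2 * m := by
    have h1 : k * 7 ≤ k * p := Nat.mul_le_mul_left _ hp7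
    have h2 : k * p ≤ 2 * (k * p - Λ.card) := by omega
    calc N * k * p = N * (k * p) := by ring
      _ ≤ N * (2 * (k * p - Λ.card)) := by gcongr
      _ = 2 * m := by rw [hm]; ring
  have hm0 : 0 < m := by
    have : 0 < N * k * p := by have := hp.out.pos; positivity
    omega
  set n' := n - m with hn'
  obtain ⟨S', hS', hcov⟩ := IH n' (by omega)
  let I : Finset (SimpleGraph (Fin n') × (Λ → Finset (Fin n'))) :=
    S' ×ˢ Fintype.piFinset (fun _ => Finset.powersetCard N Finset.univ)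
  have hI : I.card = S'.card * (n'.choose N) ^ Λ.card := by
    simp [I, Finset.card_product, Fintype.card_piFinset]
  have h1 := Cov.biUnion_const I (fun y G => ∃ (F : Fin N × (Fin k × ZMod p) → Fin n)
    (η : Fin n' → Fin n), IsSys G Θ F ∧
      IsCode G F Λ y.1 (fun x w => ∃ h : x ∈ Λ, w ∈ y.2 ⟨x, h⟩) η) 1 (by
    intro y _
    apply Cov.unique
    rintro G G' ⟨F, η, s, c⟩ ⟨F', η', s', c'⟩
    exact recover s s' c c' hx0 hlink)
  refine h1.mono ?_ ?_
  · rintro G ⟨hG, F, hF⟩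
    let Z : Finset (Fin n) := (Finset.univ ×ˢ Λᶜ).image F
    have hZ : Z.card = m := by
      rw [Finset.card_image_of_injective _ hF.inj, Finset.card_product, Finset.card_compl]
      simp [hm, ZMod.card]
    have hW : Zᶜ.card = n' := by rw [Finset.card_compl, hZ, Fintype.card_fin]
    have hmemW : ∀ v, v ∈ Zᶜ ↔ ∀ i x, F (i, x) = v → x ∈ Λ := by
      intro v
      rw [Finset.mem_compl]
      constructor
      · intro h i x hx
        by_contra hx'
        exact h (Finset.mem_image.mpr ⟨(i, x), Finset.mem_product.mpr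
          ⟨Finset.mem_univ _, Finset.mem_compl.mpr hx'⟩, hx⟩)
      · intro h hv
        obtain ⟨⟨i, x⟩, h1, h2⟩ := Finset.mem_image.mp hv
        exact Finset.mem_compl.mp (Finset.mem_product.mp h1).2 (h i x h2)
    let g : Fin n' ↪ Fin n := (Zᶜ.orderEmbOfFin hW).toEmbedding
    have hg : ∀ v, (∃ w, g w = v) ↔ v ∈ Zᶜ := by
      intro v
      have := Finset.range_orderEmbOfFin Zᶜ hW
      rw [← Finset.mem_coe, ← this]
      rfl
    obtain ⟨H, hH, ⟨ε⟩⟩ := hcov _ (hP n n' g G hG)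
    let η : Fin n' → Fin n := fun w => g (ε.symm w)
    have hηinj : Function.Injective η := g.injective.comp ε.symm.injective
    have hηr : ∀ v, (∃ w, η w = v) ↔ ∀ i x, F (i, x) = v → x ∈ Λ := by
      intro v
      rw [← hmemW, ← hg]
      constructor
      · rintro ⟨w, hw⟩
        exact ⟨_, hw⟩
      · rintro ⟨w, hw⟩
        exact ⟨ε w, by simp [η, hw]⟩
    let u : Λ → Finset (Fin n') := fun x => Finset.univ.filter (fun w => ∃ i, η w = F (i, x.1))
    refine ⟨(H, u), Finset.mem_product.mpr ⟨hH, Fintype.mem_piFinset.mpr fun x => ?_⟩, F, η, hF,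
      hηinj, hηr, ?_, ?_⟩
    · rw [Finset.mem_powersetCard]
      refine ⟨Finset.subset_univ _, ?_⟩
      have hex : ∀ i : Fin N, ∃ w, η w = F (i, x.1) := fun i =>
        (hηr _).mpr fun i' x' h => by
          have := congrArg Prod.snd (hF.inj h)
          simp only at this
          rw [this]; exact x.2
      choose ω hω using hex
      have hu : u x = Finset.univ.image ω := by
        ext w
        simp only [u, Finset.mem_filter, Finset.mem_univ, true_and, Finset.mem_image]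
        constructor
        · rintro ⟨i, hi⟩
          exact ⟨i, hηinj (by rw [hω, hi])⟩
        · rintro ⟨i, rfl⟩
          exact ⟨i, hω i⟩
      have hωinj : Function.Injective ω := by
        intro i i' h
        have h2 := hω i
        rw [h, hω i'] at h2
        exact (congrArg Prod.fst (hF.inj h2)).symm
      show (u x).card = N
      rw [hu, Finset.card_image_of_injective _ hωinj, Finset.card_univ, Fintype.card_fin]
    · intro a b
      exact (ε.symm.map_adj_iff (v := a) (w := b)).symm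
    · intro x hx w
      simp [u, hx]
  · rw [mul_one, hI]
    have h2 : n'.choose N ≤ (3 * B ^ p) ^ N := choose_le_three _ _ _ (by omega)
    have h3 : 3 * B ^ p ≤ (3 * B) ^ p := by
      rw [mul_pow]
      gcongr
      exact Nat.le_self_pow (by omega) 3
    have h4 : 1 ≤ (3 * B) ^ p := Nat.one_le_pow _ _ (by omega)
    apply Nat.mul_le_mul
    · exact hS'.trans (Nat.pow_le_pow_right hD (by omega))
    · calc n'.choose N ^ Λ.card ≤ (((3 * B) ^ p) ^ N) ^ Λ.card := by
            gcongr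
            exact h2.trans (by gcongr)
        _ ≤ (((3 * B) ^ p) ^ N) ^ (3 * k) :=
            Nat.pow_le_pow_right (Nat.one_le_pow _ _ h4) hΛ
        _ = ((3 * B) ^ 3) ^ (N * k * p) := by
            rw [← pow_mul, ← pow_mul, ← pow_mul]
            congr 1
            ring

theorem small_imp_tiny (P : (n : ℕ) → SimpleGraph (Fin n) → Prop)
    (hP : ∀ (n m : ℕ) (f : Fin m ↪ Fin n) (G : SimpleGraph (Fin n)), P n G → P m (G.comap f))
    (c0 : ℕ) (hc0 : ∀ n, {G : SimpleGraph (Fin n) | P n G}.ncard ≤ n.factorial * c0 ^ n) :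
    ∃ C : ℕ, ∀ n, Cov n (P n) (C ^ n) := by
  classical
  set c := c0 + 1 with hcdef
  have hc : ∀ n, {G : SimpleGraph (Fin n) | P n G}.ncard ≤ n.factorial * c ^ n := by
    intro n
    refine (hc0 n).trans ?_
    gcongr
    omega
  obtain ⟨K, hK⟩ := exists_K
  obtain ⟨B, hB1, hBt⟩ : ∃ B : ℕ, 1 ≤ B ∧ ∀ (p k : ℕ) [Fact p.Prime], k ≤ p.sqrt.sqrt →
      (Types P p k).ncard ≤ B ^ p :=
    ⟨(8 * c) ^ 8 * 2 ^ 24, Nat.one_le_iff_ne_zero.mpr (by positivity),
      fun p k _ hk => card_types P c (by omega) hc p k hk⟩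
  obtain ⟨E, hE⟩ : ∃ E, E = 8 * (B * (3 * (8 * B)) ^ 3) := ⟨_, rfl⟩
  obtain ⟨D, hD⟩ : ∃ D, D = 3 * E + 2 * (c * K) + 1 := ⟨_, rfl⟩
  refine ⟨D ^ 2, fun n => ?_⟩
  rw [← pow_mul]
  induction n using Nat.strong_induction_on with
  | _ n IH =>
  rcases Nat.eq_zero_or_pos n with rfl | hn
  · exact (Cov.unique _ fun G G' _ _ => by rw [Subsingleton.elim G G']; exact ⟨.refl⟩).mono
      (fun _ h => h) (by simp)
  have hsmall := cov_small_aut n (P n) (fun σ G hG => hP n n σ.toEmbedding G hG) (c ^ n) (K ^ n)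
    (hc n)
  let Q : ℕ × ℕ × ℕ → SimpleGraph (Fin n) → Prop := fun y G =>
    P n G ∧ ∃ Θ ∈ Types P y.1 y.2.1, ∃ F : Fin y.2.2 × (Fin y.2.1 × ZMod y.1) → Fin n,
      IsSys G Θ F
  let I : ℕ → Finset (ℕ × ℕ × ℕ) := fun M =>
    (Finset.Icc 1 M ×ˢ Finset.Icc 1 M ×ˢ Finset.Icc 1 M).filter (fun y => y.1.Prime ∧ 7 ≤ y.1 ∧
      y.2.1 ≤ y.1.sqrt.sqrt ∧ n ≤ y.2.2 * (8 * B) ^ y.1 ∧ y.2.2 * y.2.1 * y.1 = M)
  have hM : ∀ M ∈ Finset.Icc 1 n, Cov n (fun G => ∃ y ∈ I M, Q y G) (D ^ (2 * n - M) * E ^ M) := by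
    intro M _
    have h1 := Cov.biUnion_const (I M) Q
      (B ^ M * (D ^ (2 * n - M) * ((3 * (8 * B)) ^ 3) ^ M)) (by
      rintro ⟨p, k, N⟩ hy
      obtain ⟨hy1, hpp, hp7, hk, hN, hMeq⟩ := Finset.mem_filter.mp hy
      simp only at hpp hp7 hk hN hMeq
      simp only [Finset.mem_product, Finset.mem_Icc] at hy1
      have : Fact p.Prime := ⟨hpp⟩
      have h2 := Cov.biUnion_const (Types P p k).toFinite.toFinset
        (fun Θ G => P n G ∧ ∃ F : Fin N × (Fin k × ZMod p) → Fin n, IsSys G Θ F)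
        (D ^ (2 * n - M) * ((3 * (8 * B)) ^ 3) ^ M) (by
        intro Θ hΘ
        rw [← hMeq]
        exact cov_sys P hP D (8 * B) n p k N hp7 (by omega) (by omega) hn IH hN Θ
          ((Set.Finite.mem_toFinset _).mp hΘ).1)
      refine h2.mono ?_ ?_
      · rintro G ⟨hG, Θ, hΘ, F, hF⟩
        exact ⟨Θ, (Set.Finite.mem_toFinset _).mpr hΘ, hG, F, hF⟩
      · gcongr
        rw [← Set.ncard_eq_toFinset_card]
        exact (hBt p k hk).trans
          (Nat.pow_le_pow_right hB1 hy1.1.2))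
    refine h1.mono (fun _ h => h) ?_
    have h3 : (I M).card ≤ 8 ^ M := by
      refine (Finset.card_filter_le _ _).trans ?_
      simp only [Finset.card_product, Nat.card_Icc, add_tsub_cancel_right]
      have h4 : M ≤ 2 ^ M := Nat.lt_two_pow_self.le
      calc M * (M * M) ≤ 2 ^ M * (2 ^ M * 2 ^ M) := by gcongr
        _ = 8 ^ M := by rw [← mul_pow, ← mul_pow]; norm_num
    calc (I M).card * (B ^ M * (D ^ (2 * n - M) * ((3 * (8 * B)) ^ 3) ^ M))
        ≤ 8 ^ M * (B ^ M * (D ^ (2 * n - M) * ((3 * (8 * B)) ^ 3) ^ M)) := by gcongr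
      _ = D ^ (2 * n - M) * E ^ M := by rw [hE, mul_pow 8, mul_pow B]; ring
  have hlarge := Cov.biUnion (Finset.Icc 1 n) _ _ hM
  refine (hsmall.union hlarge).mono ?_ ?_
  · intro G hG
    by_cases hbig : ∃ p, p.Prime ∧ 7 ≤ p ∧
        3 * n ≤ (Nat.card (autGrp G)).factorization p * p * p.sqrt.sqrt
    · right
      obtain ⟨p, hpp, hp7, hbig⟩ := hbig
      have : Fact p.Prime := ⟨hpp⟩
      obtain ⟨k, N, Θ, F, hk1, hk2, hΘ, hF, hN⟩ := exists_sys P hP B n hn G hG p
        (fun k hk => hBt p k hk) hB1 _ (Nat.ordProj_dvd _ _) hbig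
      have hN0 : 0 < N := by
        rcases Nat.eq_zero_or_pos N with h | h
        · subst h; omega
        · exact h
      have hle : N * k * p ≤ n := by
        have := Fintype.card_le_of_injective F hF.inj
        simpa [ZMod.card, mul_assoc] using this
      have hpos : 0 < N * k * p := by positivity
      refine ⟨N * k * p, Finset.mem_Icc.mpr ⟨hpos, hle⟩, (p, k, N), Finset.mem_filter.mpr
        ⟨?_, hpp, hp7, hk2, hN, rfl⟩, hG, Θ, hΘ, F, hF⟩
      simp only [Finset.mem_product, Finset.mem_Icc]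
      refine ⟨⟨by omega, Nat.le_mul_of_pos_left _ (by positivity)⟩, ⟨hk1, ?_⟩, hN0, ?_⟩
      · exact (Nat.le_mul_of_pos_left _ hN0).trans (Nat.le_mul_of_pos_right _ (by omega))
      · exact (Nat.le_mul_of_pos_right _ hk1).trans (Nat.le_mul_of_pos_right _ (by omega))
    · left
      refine ⟨hG, hK n _ Nat.card_pos.ne' ?_⟩
      intro p hpp
      by_cases hp7 : 7 ≤ p
      · have : ¬ 3 * n ≤ (Nat.card (autGrp G)).factorization p * p * p.sqrt.sqrt :=
          fun h => hbig ⟨p, hpp, hp7, h⟩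
        omega
      · have : Fact p.Prime := ⟨hpp⟩
        have h1 : Nat.card (autGrp G) ∣ n.factorial := by
          have := Subgroup.card_subgroup_dvd_card (autGrp G)
          rwa [Nat.card_perm, Nat.card_eq_fintype_card (α := Fin n), Fintype.card_fin] at this
        have h2 : (Nat.card (autGrp G)).factorization p ≤ padicValNat p n.factorial :=
          (padicValNat_dvd_iff_le (Nat.factorial_ne_zero _)).mp ((Nat.ordProj_dvd _ _).trans h1)
        have h3 := sub_one_mul_padicValNat_factorial (p := p) n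
        have h4 : 1 ≤ p - 1 := by have := hpp.two_le; omega
        have h5 : padicValNat p n.factorial ≤ n :=
          (Nat.le_mul_of_pos_left _ h4).trans (by rw [h3]; exact Nat.sub_le _ _)
        have h6 : p.sqrt.sqrt ≤ 1 := by
          obtain ⟨h7, _⟩ := fourth_root p
          by_contra h8
          have h9 : 2 ^ 4 ≤ p.sqrt.sqrt ^ 4 := Nat.pow_le_pow_left (by omega) 4
          omega
        calc (Nat.card (autGrp G)).factorization p * p * p.sqrt.sqrt ≤ n * 7 * 1 := by
              gcongr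
              · exact h2.trans h5
              · omega
          _ = 7 * n := by ring
  · have h1 := geom_bound D E (2 * n) (by omega) n (by omega)
    have h2 : 2 * (c ^ n * K ^ n) ≤ D ^ (2 * n) :=
      calc 2 * (c ^ n * K ^ n) ≤ 2 ^ n * (c ^ n * K ^ n) := by
            gcongr
            exact Nat.le_self_pow (by omega) 2
        _ = (2 * (c * K)) ^ n := by rw [mul_pow, mul_pow]
        _ ≤ D ^ n := by gcongr; omega
        _ ≤ D ^ (2 * n) := Nat.pow_le_pow_right (by omega) (by omega)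
    omega

end Pool.Agent.MP_debc19_co

end MrgPart4

-- marker of a merged file
example : 731051 + 708257 = 731051 + 708257 := rfl
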